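import Pool.Agent.Q107.Flip.Gadget

/-!
# The two triangulations of the chain of gadgets
-/

set_option autoImplicit false

namespace Pool.Agent.Q107.Flip

open Vx

section Chain

variable (s : ℕ)

/-- positions of `U g 0, …, U g (k - 1)` -/
noncomputable def Us (g k : ℕ) : List Pt := (List.range k).map fun i => pos s (U g i)

/-- positions of `L g j, …, L g (j + k - 1)` -/
noncomputable def Ls (g j k : ℕ) : List Pt := (List.range' j k).map fun i => pos s (L g i)

theorem Us_succ (g k : ℕ) : Us s g (k + 1) = Us s g k ++ [pos s (U g k)] := by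
  simp [Us, List.range_succ]

theorem Ls_succ (g j k : ℕ) : Ls s g j (k + 1) = pos s (L g j) :: Ls s g (j + 1) k := by
  simp [Ls, List.range'_succ]

/-- the triangles `U i, U (i + 1), L j` -/
noncomputable def triU (g i j : ℕ) : Finset Pt := {pos s (U g i), pos s (U g (i + 1)), pos s (L g j)}

/-- the triangles `U i, L j, L (j + 1)` -/
noncomputable def triL (g i j : ℕ) : Finset Pt := {pos s (U g i), pos s (L g j), pos s (L g (j + 1))}

variable {s}

theorem sweep_cast {X X' Y Y' : List Pt} {T T' : Finset (Finset Pt)} (h : Sweep X Y T)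
    (hX : X = X') (hY : Y = Y') (hT : T = T') : Sweep X' Y' T' := by
  subst hX hY hT
  exact h

theorem sweep_U (g j : ℕ) (hj : j ≤ s) (P Q : List Pt) : ∀ k, k ≤ s →
    Sweep (P ++ Us s g 1 ++ pos s (L g j) :: Q) (P ++ Us s g (k + 1) ++ pos s (L g j) :: Q)
      ((Finset.range k).image fun i => triU s g i j) := by
  intro k
  induction k with
  | zero =>
    intro _
    exact sweep_cast (Sweep.refl _) rfl rfl (by simp)
  | succ k ih =>
    intro hk
    have h1 := ih (by omega)
    have e1 : P ++ Us s g (k + 1) ++ pos s (L g j) :: Q =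
        (P ++ Us s g k) ++ pos s (U g k) :: pos s (L g j) :: Q := by
      rw [Us_succ]
      simp
    rw [e1] at h1
    have h2 := Sweep.ins (P ++ Us s g k) Q (pos s (U g k)) (pos s (U g (k + 1))) (pos s (L g j)) h1
      (x_lt (by simp only [xn]; omega)) (x_lt (by simp only [xn]; omega)) (det_ULU g (by omega) hj)
    refine sweep_cast h2 rfl ?_ ?_
    · rw [Us_succ, Us_succ]
      simp
    · rw [Finset.range_add_one, Finset.image_insert, Finset.insert_eq]
      rfl

theorem sweep_L (g i : ℕ) (hi : i ≤ s) (P Q : List Pt) : ∀ k, k ≤ s →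
    Sweep (P ++ pos s (U g i) :: (Ls s g 0 (s + 1) ++ Q))
      (P ++ pos s (U g i) :: (Ls s g k (s + 1 - k) ++ Q))
      ((Finset.range k).image fun j => triL s g i j) := by
  intro k
  induction k with
  | zero =>
    intro _
    exact sweep_cast (Sweep.refl _) rfl rfl (by simp)
  | succ k ih =>
    intro hk
    have h1 := ih (by omega)
    have e1 : P ++ pos s (U g i) :: (Ls s g k (s + 1 - k) ++ Q) =
        P ++ pos s (U g i) :: pos s (L g k) :: pos s (L g (k + 1)) ::
          (Ls s g (k + 2) (s - k - 1) ++ Q) := by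
      rw [show s + 1 - k = (s - k - 1) + 1 + 1 by omega, Ls_succ, Ls_succ]
      rfl
    rw [e1] at h1
    have h2 := Sweep.rem P (Ls s g (k + 2) (s - k - 1) ++ Q) (pos s (U g i)) (pos s (L g k))
      (pos s (L g (k + 1))) h1 (det_ULL g hi (by omega))
    refine sweep_cast h2 rfl ?_ ?_
    · rw [show s + 1 - (k + 1) = (s - k - 1) + 1 by omega, Ls_succ]
      rfl
    · rw [Finset.range_add_one, Finset.image_insert, Finset.insert_eq]
      rfl

variable (s)

/-- the triangle `D, U 0, L 0` -/
noncomputable def triD (g : ℕ) : Finset Pt := {pos s (D g), pos s (U g 0), pos s (L g 0)}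

/-- the triangle `U s, L s, C` -/
noncomputable def triC (g : ℕ) : Finset Pt := {pos s (U g s), pos s (L g s), pos s (C (g + 1))}

/-- the middle of the first triangulation of a gadget -/
noncomputable def midF (g : ℕ) : Finset (Finset Pt) :=
  {triC s g} ∪ (((Finset.range s).image fun j => triL s g s j) ∪
    (((Finset.range s).image fun i => triU s g i 0) ∪ {triD s g}))

/-- the middle of the second triangulation of a gadget -/
noncomputable def midZ (g : ℕ) : Finset (Finset Pt) :=
  {triC s g} ∪ (((Finset.range s).image fun i => triU s g i s) ∪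
    (((Finset.range s).image fun j => triL s g 0 j) ∪ {triD s g}))

variable {s}

/-- insertion of `U 0` -/
theorem sweep_D (g : ℕ) (P Q : List Pt) :
    Sweep (P ++ pos s (D g) :: (Ls s g 0 (s + 1) ++ Q))
      (P ++ pos s (D g) :: pos s (U g 0) :: (Ls s g 0 (s + 1) ++ Q)) {triD s g} := by
  have h := Sweep.ins P (Ls s g 1 s ++ Q) (pos s (D g)) (pos s (U g 0)) (pos s (L g 0))
    (Sweep.refl _) (x_lt (by simp only [xn]; omega)) (x_lt (by simp only [xn]; omega)) (det_DLU g)
  refine sweep_cast h ?_ ?_ ?_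
  · rw [Ls_succ]
    rfl
  · rw [Ls_succ]
    rfl
  · simp [triD]

/-- removal of `L s` -/
theorem sweep_C (g : ℕ) (P Q : List Pt) :
    Sweep (P ++ pos s (U g s) :: pos s (L g s) :: pos s (C (g + 1)) :: Q)
      (P ++ pos s (U g s) :: pos s (C (g + 1)) :: Q) {triC s g} := by
  have h := Sweep.rem P Q (pos s (U g s)) (pos s (L g s)) (pos s (C (g + 1)))
    (Sweep.refl _) (det_UCL g)
  refine sweep_cast h rfl rfl ?_
  simp [triC]

theorem sweep_midF (g : ℕ) (P Q : List Pt) :
    Sweep (P ++ pos s (D g) :: (Ls s g 0 (s + 1) ++ pos s (C (g + 1)) :: Q))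
      (P ++ pos s (D g) :: (Us s g (s + 1) ++ pos s (C (g + 1)) :: Q)) (midF s g) := by
  have h1 := sweep_D (s := s) g P (pos s (C (g + 1)) :: Q)
  -- insert the other upper vertices
  have h2 := sweep_U (s := s) g 0 (Nat.zero_le _) (P ++ [pos s (D g)])
    (Ls s g 1 s ++ pos s (C (g + 1)) :: Q) s le_rfl
  -- remove the lower vertices but the last
  have h3 := sweep_L (s := s) g s le_rfl (P ++ [pos s (D g)] ++ Us s g s)
    (pos s (C (g + 1)) :: Q) s le_rfl
  have h4 := sweep_C (s := s) g (P ++ [pos s (D g)] ++ Us s g s) Q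
  have e1 : P ++ pos s (D g) :: pos s (U g 0) :: (Ls s g 0 (s + 1) ++ pos s (C (g + 1)) :: Q) =
      P ++ [pos s (D g)] ++ Us s g 1 ++
        pos s (L g 0) :: (Ls s g 1 s ++ pos s (C (g + 1)) :: Q) := by
    rw [Ls_succ, Us_succ]
    simp [Us]
  have e2 : P ++ [pos s (D g)] ++ Us s g (s + 1) ++
      pos s (L g 0) :: (Ls s g 1 s ++ pos s (C (g + 1)) :: Q) =
      P ++ [pos s (D g)] ++ Us s g s ++ pos s (U g s) ::
        (Ls s g 0 (s + 1) ++ pos s (C (g + 1)) :: Q) := by
    rw [Ls_succ, Us_succ]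
    simp
  have e3 : P ++ [pos s (D g)] ++ Us s g s ++ pos s (U g s) ::
      (Ls s g s (s + 1 - s) ++ pos s (C (g + 1)) :: Q) =
      P ++ [pos s (D g)] ++ Us s g s ++ pos s (U g s) :: pos s (L g s) ::
        pos s (C (g + 1)) :: Q := by
    rw [show s + 1 - s = 0 + 1 by omega, Ls_succ]
    simp [Ls]
  have e4 : P ++ [pos s (D g)] ++ Us s g s ++ pos s (U g s) :: pos s (C (g + 1)) :: Q =
      P ++ pos s (D g) :: (Us s g (s + 1) ++ pos s (C (g + 1)) :: Q) := by
    rw [Us_succ]
    simp
  rw [e1] at h1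
  rw [e2] at h2
  rw [e3] at h3
  rw [e4] at h4
  exact ((h1.trans h2).trans h3).trans h4

theorem sweep_midZ (g : ℕ) (P Q : List Pt) :
    Sweep (P ++ pos s (D g) :: (Ls s g 0 (s + 1) ++ pos s (C (g + 1)) :: Q))
      (P ++ pos s (D g) :: (Us s g (s + 1) ++ pos s (C (g + 1)) :: Q)) (midZ s g) := by
  have h1 := sweep_D (s := s) g P (pos s (C (g + 1)) :: Q)
  have h2 := sweep_L (s := s) g 0 (Nat.zero_le _) (P ++ [pos s (D g)])
    (pos s (C (g + 1)) :: Q) s le_rfl
  have h3 := sweep_U (s := s) g s le_rfl (P ++ [pos s (D g)])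
    (pos s (C (g + 1)) :: Q) s le_rfl
  have h4 := sweep_C (s := s) g (P ++ [pos s (D g)] ++ Us s g s) Q
  have e1 : P ++ pos s (D g) :: pos s (U g 0) :: (Ls s g 0 (s + 1) ++ pos s (C (g + 1)) :: Q) =
      P ++ [pos s (D g)] ++ pos s (U g 0) :: (Ls s g 0 (s + 1) ++ pos s (C (g + 1)) :: Q) := by
    simp
  have e2 : P ++ [pos s (D g)] ++ pos s (U g 0) ::
      (Ls s g s (s + 1 - s) ++ pos s (C (g + 1)) :: Q) =
      P ++ [pos s (D g)] ++ Us s g 1 ++ pos s (L g s) :: pos s (C (g + 1)) :: Q := by
    rw [show s + 1 - s = 0 + 1 by omega, Ls_succ]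
    simp [Ls, Us]
  have e3 : P ++ [pos s (D g)] ++ Us s g (s + 1) ++ pos s (L g s) :: pos s (C (g + 1)) :: Q =
      P ++ [pos s (D g)] ++ Us s g s ++ pos s (U g s) :: pos s (L g s) ::
        pos s (C (g + 1)) :: Q := by
    rw [Us_succ]
    simp
  have e4 : P ++ [pos s (D g)] ++ Us s g s ++ pos s (U g s) :: pos s (C (g + 1)) :: Q =
      P ++ pos s (D g) :: (Us s g (s + 1) ++ pos s (C (g + 1)) :: Q) := by
    rw [Us_succ]
    simp
  rw [e1] at h1
  rw [e2] at h2
  rw [e3] at h3
  rw [e4] at h4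
  exact ((h1.trans h2).trans h3).trans h4

/-! ### The whole chain -/

variable (s)

/-- lower path of `m` gadgets without the last two vertices -/
noncomputable def lowI : ℕ → List Pt
  | 0 => []
  | m + 1 => lowI m ++ pos s (C m) :: Ls s m 0 (s + 1)

/-- upper path of `m` gadgets without the first and the last vertex -/
noncomputable def uppI : ℕ → List Pt
  | 0 => []
  | m + 1 => uppI m ++ pos s (D m) :: Us s m (s + 1)

/-- the lower path -/
noncomputable def low (m : ℕ) : List Pt := lowI s m ++ [pos s (C m), pos s (D m)]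

/-- the upper path -/
noncomputable def upp (m : ℕ) : List Pt := pos s (C 0) :: (uppI s m ++ [pos s (D m)])

/-- the triangle `C, D, L 0` -/
noncomputable def tri1 (g : ℕ) : Finset Pt := {pos s (C g), pos s (D g), pos s (L g 0)}

/-- the triangle `U s, C, D` -/
noncomputable def tri3 (g : ℕ) : Finset Pt :=
  {pos s (U g s), pos s (C (g + 1)), pos s (D (g + 1))}

/-- the triangulation of the chain given by triangulations `M g` of the middles -/
noncomputable def chain (M : ℕ → Finset (Finset Pt)) : ℕ → Finset (Finset Pt)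
  | 0 => ∅
  | m + 1 => {tri3 s m} ∪ (M m ∪ (chain M m ∪ {tri1 s m}))

variable {s}

theorem mem_chain {M : ℕ → Finset (Finset Pt)} {m : ℕ} {t : Finset Pt} :
    t ∈ chain s M m ↔ ∃ g < m, t = tri1 s g ∨ t = tri3 s g ∨ t ∈ M g := by
  induction m with
  | zero => simp [chain]
  | succ m ih =>
    simp only [chain, Finset.mem_union, Finset.mem_singleton, ih]
    constructor
    · rintro (h | h | ⟨g, hg, h⟩ | h)
      · exact ⟨m, by omega, Or.inr (Or.inl h)⟩
      · exact ⟨m, by omega, Or.inr (Or.inr h)⟩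
      · exact ⟨g, by omega, h⟩
      · exact ⟨m, by omega, Or.inl h⟩
    · rintro ⟨g, hg, h⟩
      rcases Nat.lt_succ_iff_lt_or_eq.1 hg with hg | rfl
      · exact Or.inr (Or.inr (Or.inl ⟨g, hg, h⟩))
      · rcases h with h | h | h
        · exact Or.inr (Or.inr (Or.inr h))
        · exact Or.inl h
        · exact Or.inr (Or.inl h)

theorem sweep_chain {M : ℕ → Finset (Finset Pt)}
    (hM : ∀ (g : ℕ) (P Q : List Pt),
      Sweep (P ++ pos s (D g) :: (Ls s g 0 (s + 1) ++ pos s (C (g + 1)) :: Q))
        (P ++ pos s (D g) :: (Us s g (s + 1) ++ pos s (C (g + 1)) :: Q)) (M g)) (m : ℕ) :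
    Sweep (low s m) (upp s m) (chain s M m) := by
  induction m with
  | zero => exact sweep_cast (Sweep.refl _) rfl (by simp [low, upp, lowI, uppI]) rfl
  | succ m ih =>
    set R : List Pt := Ls s m 0 (s + 1) ++ pos s (C (m + 1)) :: [pos s (D (m + 1))] with hR
    -- insert `D m`
    have h1 : Sweep (low s (m + 1)) (low s m ++ R) {tri1 s m} := by
      have h := Sweep.ins (lowI s m) (Ls s m 1 s ++ pos s (C (m + 1)) :: [pos s (D (m + 1))])
        (pos s (C m)) (pos s (D m)) (pos s (L m 0)) (Sweep.refl _)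
        (x_lt (by simp only [xn]; omega)) (x_lt (by simp only [xn]; omega)) (det_CLD m)
      refine sweep_cast h ?_ ?_ ?_
      · rw [low, lowI, Ls_succ]
        simp
      · rw [hR, low, Ls_succ]
        simp
      · simp [tri1]
    have h2 := ih.context [] R
    simp only [List.nil_append] at h2
    have h3 := hM m (pos s (C 0) :: uppI s m) [pos s (D (m + 1))]
    have h4 : Sweep ((pos s (C 0) :: (uppI s m ++ pos s (D m) :: Us s m s)) ++
        pos s (U m s) :: pos s (C (m + 1)) :: [pos s (D (m + 1))])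
        ((pos s (C 0) :: (uppI s m ++ pos s (D m) :: Us s m s)) ++
        pos s (U m s) :: [pos s (D (m + 1))]) {tri3 s m} := by
      have h := Sweep.rem (pos s (C 0) :: (uppI s m ++ pos s (D m) :: Us s m s)) []
        (pos s (U m s)) (pos s (C (m + 1))) (pos s (D (m + 1))) (Sweep.refl _) (det_UDC m)
      refine sweep_cast h rfl rfl ?_
      simp [tri3]
    have e1 : upp s m ++ R = (pos s (C 0) :: uppI s m) ++ pos s (D m) ::
        (Ls s m 0 (s + 1) ++ pos s (C (m + 1)) :: [pos s (D (m + 1))]) := by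
      rw [hR, upp]
      simp
    have e2 : (pos s (C 0) :: uppI s m) ++ pos s (D m) ::
        (Us s m (s + 1) ++ pos s (C (m + 1)) :: [pos s (D (m + 1))]) =
        (pos s (C 0) :: (uppI s m ++ pos s (D m) :: Us s m s)) ++
        pos s (U m s) :: pos s (C (m + 1)) :: [pos s (D (m + 1))] := by
      rw [Us_succ]
      simp
    have e3 : (pos s (C 0) :: (uppI s m ++ pos s (D m) :: Us s m s)) ++
        pos s (U m s) :: [pos s (D (m + 1))] = upp s (m + 1) := by
      rw [upp, uppI, Us_succ]
      simp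
    rw [e1] at h2
    rw [e2] at h3
    rw [e3] at h4
    refine sweep_cast (((h1.trans h2).trans h3).trans h4) rfl rfl ?_
    rfl

end Chain

end Pool.Agent.Q107.Flip
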