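import Mathlib

/-!
# Flips and Steiner points in triangulated simple polygons: definitions
-/

set_option autoImplicit false

namespace Pool.Agent.Q107.Flip

/-- The plane. -/
abbrev Pt := ℝ × ℝ

/-- The closed region spanned by a finite set of points (a closed triangle for three points). -/
def hull (t : Finset Pt) : Set Pt := convexHull ℝ (t : Set Pt)

/-- The pairs of consecutive entries of a list. -/
def pairs (l : List Pt) : List (Pt × Pt) := l.zip l.tail

/-- The edges of the closed polygon with vertices `p` in cyclic order: the pairs of consecutive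
entries of `p₀, p₁, …, pₙ₋₁, p₀`. -/
def edges (p : List Pt) : List (Pt × Pt) := pairs (p ++ p.take 1)

/-- `p` is the cyclic list of the vertices of a simple polygon and `P` is this polygon, that is, the
compact region (with nonempty interior) whose frontier is the polygonal curve. -/
structure IsSimplePolygon (p : List Pt) (P : Set Pt) : Prop where
  three_le : 3 ≤ p.length
  nodup : p.Nodup
  simple : ∀ e ∈ edges p, ∀ e' ∈ edges p, e ≠ e' →
    segment ℝ e.1 e.2 ∩ segment ℝ e'.1 e'.2 ⊆ {e.1, e.2} ∩ {e'.1, e'.2}
  compact : IsCompact P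
  interior_nonempty : (interior P).Nonempty
  frontier_eq : frontier P = ⋃ e ∈ edges p, segment ℝ e.1 e.2

/-- `T` is a triangulation of `(P, S)`. -/
structure IsTriangulation (P : Set Pt) (S : Finset Pt) (T : Finset (Finset Pt)) : Prop where
  card : ∀ t ∈ T, t.card = 3
  subset : ∀ t ∈ T, t ⊆ S
  nondeg : ∀ t ∈ T, (interior (hull t)).Nonempty
  disj : ∀ t ∈ T, ∀ t' ∈ T, t ≠ t' → Disjoint (interior (hull t)) (interior (hull t'))
  union : ⋃ t ∈ T, hull t = P
  empty : ∀ t ∈ T, ∀ x ∈ S, x ∉ interior (hull t)

/-- `T'` arises from `T` by inserting the Steiner point `x`, which lies in the interior of the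
polygon `P` and of a triangle `t` of `T`: it is joined to the three vertices of `t`. -/
def InsertPoint (P : Set Pt) (x : Pt) (T T' : Finset (Finset Pt)) : Prop :=
  x ∈ interior P ∧ ∃ t ∈ T, x ∈ interior (hull t) ∧
    T' = T.erase t ∪ t.image fun a => insert x (t.erase a)

/-- `T'` arises from `T` by inserting the Steiner points of the list one after the other. -/
inductive InsertPoints (P : Set Pt) : List Pt → Finset (Finset Pt) → Finset (Finset Pt) → Prop
  | nil (T : Finset (Finset Pt)) : InsertPoints P [] T T
  | cons {x : Pt} {q : List Pt} {T T' T'' : Finset (Finset Pt)} (h : InsertPoint P x T T')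
      (h' : InsertPoints P q T' T'') : InsertPoints P (x :: q) T T''

/-- `T'` arises from `T` by a flip: the two triangles `abc` and `abd` with the common edge `ab` form
a convex quadrilateral (its diagonals `ab` and `cd` cross), and `ab` is replaced by `cd`. -/
def IsFlip (T T' : Finset (Finset Pt)) : Prop :=
  ∃ a b c d : Pt, {a, b, c} ∈ T ∧ {a, b, d} ∈ T ∧ c ≠ d ∧
    (openSegment ℝ a b ∩ openSegment ℝ c d).Nonempty ∧
    T' = (T \ {{a, b, c}, {a, b, d}}) ∪ {{a, c, d}, {b, c, d}}

/-- `T` can be transformed into `T'` by exactly `N` flips. -/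
inductive FlipPath : ℕ → Finset (Finset Pt) → Finset (Finset Pt) → Prop
  | refl (T : Finset (Finset Pt)) : FlipPath 0 T T
  | step {N : ℕ} {T T' T'' : Finset (Finset Pt)} (h : FlipPath N T T') (h' : IsFlip T' T'') :
      FlipPath (N + 1) T T''

end Pool.Agent.Q107.Flip
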