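import Pool.Agent.Q107.Flip.Local

/-!
# The weight of a triangulation and flips
-/

set_option autoImplicit false

namespace Pool.Agent.Q107.Flip

open Vx

theorem mem_hull_self {t : Finset Pt} {z : Pt} (h : z ∈ t) : z ∈ hull t :=
  subset_convexHull ℝ _ (by simpa using h)

theorem hull_convex (t : Finset Pt) : Convex ℝ (hull t) := convex_convexHull ℝ _

theorem det_ne_zero_of_nonempty {a b c : Pt} (h : (interior (hull {a, b, c})).Nonempty) :
    det a b c ≠ 0 := by
  intro h0
  obtain ⟨z, hz⟩ := h
  have key : ∀ p ∈ hull {a, b, c}, det a b p = 0 ∧ det c a p = 0 := by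
    intro p hp
    rw [hull_triple, mem_hull3] at hp
    obtain ⟨α, β, γ, -, -, -, hsum, e1, e2⟩ := hp
    constructor
    · have : det a b p = γ * det a b c := by
        simp only [det, e1, e2]
        rw [show α = 1 - β - γ by linarith]
        ring
      rw [this, h0, mul_zero]
    · have : det c a p = β * det a b c := by
        simp only [det, e1, e2]
        rw [show γ = 1 - α - β by linarith]
        ring
      rw [this, h0, mul_zero]
  have hz0 := key z (interior_subset hz)
  obtain ⟨ε, hε, h1⟩ := exists_direction hz (1, 0)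
  obtain ⟨δ, hδ, h2⟩ := exists_direction hz (0, 1)
  have k1 := key _ h1
  have k2 := key _ h2
  simp only [det] at hz0 k1 k2
  have a1 : b.2 - a.2 = 0 := by
    have : ε * (b.2 - a.2) = 0 := by linarith [hz0.1, k1.1]
    rcases mul_eq_zero.1 this with h | h
    · linarith
    · exact h
  have a2 : b.1 - a.1 = 0 := by
    have : δ * (b.1 - a.1) = 0 := by linarith [hz0.1, k2.1]
    rcases mul_eq_zero.1 this with h | h
    · linarith
    · exact h
  have a3 : a.2 - c.2 = 0 := by
    have : ε * (a.2 - c.2) = 0 := by linarith [hz0.2, k1.2]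
    rcases mul_eq_zero.1 this with h | h
    · linarith
    · exact h
  have a4 : a.1 - c.1 = 0 := by
    have : δ * (a.1 - c.1) = 0 := by linarith [hz0.2, k2.2]
    rcases mul_eq_zero.1 this with h | h
    · linarith
    · exact h
  have hb : b = a := Prod.ext (by linarith) (by linarith)
  have hc : c = a := Prod.ext (by linarith) (by linarith)
  subst hb hc
  have e1 : ∀ p ∈ hull {c, c, c}, p.1 = c.1 := by
    intro p hp
    rw [hull_triple, mem_hull3] at hp
    obtain ⟨α, β, γ, -, -, -, hsum, e1, -⟩ := hp
    rw [e1, ← add_mul, ← add_mul, hsum, one_mul]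
  have e2 := e1 z (interior_subset hz)
  have e3 := e1 _ h1
  simp only [mul_one] at e3
  linarith

theorem ne_of_det {a b c : Pt} (h : det a b c ≠ 0) : a ≠ b ∧ a ≠ c ∧ b ≠ c := by
  refine ⟨?_, ?_, ?_⟩
  · rintro rfl
    apply h
    simp [det]
  · rintro rfl
    apply h
    simp [det]
  · rintro rfl
    apply h
    simp only [det]
    ring

section Weight

variable {s m : ℕ} {Gs : Finset ℕ}

/-- outside of the strips of the gadgets in `Gs` -/
def Outside (s : ℕ) (Gs : Finset ℕ) (z : Pt) : Prop :=
  ∀ g ∈ Gs, z.1 < ((g * wid s : ℕ) : ℝ) ∨ (((g + 1) * wid s : ℕ) : ℝ) ≤ z.1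

/-- triangles that may occur -/
structure Good (s m : ℕ) (Gs : Finset ℕ) (t : Finset Pt) : Prop where
  card : t.card = 3
  nd : (interior (hull t)).Nonempty
  sub : hull t ⊆ Poly s m
  adm : ∀ z ∈ t, (∃ v, InR s m v ∧ pos s v = z) ∨ Outside s Gs z

open Classical in
/-- the weight of a triangle -/
noncomputable def wt (s : ℕ) (Gs : Finset ℕ) (t : Finset Pt) : ℕ :=
  ((Finset.range (s + 1)).filter fun j => ∃ g ∈ Gs, ∃ i < s, t = triU s g i j).sup id

theorem le_wt {g i j : ℕ} (hg : g ∈ Gs) (hi : i < s) (hj : j ≤ s) :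
    j ≤ wt s Gs (triU s g i j) := by
  unfold wt
  refine Finset.le_sup (f := id) (Finset.mem_filter.2 ⟨Finset.mem_range.2 (by omega), ?_⟩)
  exact ⟨g, hg, i, hi, rfl⟩

theorem wt_spec {t : Finset Pt} (h : 1 ≤ wt s Gs t) :
    ∃ g ∈ Gs, ∃ i < s, ∃ j, 1 ≤ j ∧ j ≤ s ∧ wt s Gs t = j ∧ t = triU s g i j := by
  classical
  unfold wt at h ⊢
  set F := (Finset.range (s + 1)).filter fun j => ∃ g ∈ Gs, ∃ i < s, t = triU s g i j with hF
  have hne : F.Nonempty := by
    rw [Finset.nonempty_iff_ne_empty]
    intro h0
    rw [h0] at h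
    simp at h
  obtain ⟨j, hj, e⟩ := Finset.exists_mem_eq_sup F hne id
  obtain ⟨h1, g, hg, i, hi, h2⟩ := Finset.mem_filter.1 hj
  rw [Finset.mem_range] at h1
  refine ⟨g, hg, i, hi, j, ?_, by omega, e, h2⟩
  rw [e] at h
  exact h

/-- a triangle with two lower vertices has weight zero -/
theorem wt_two_L {t : Finset Pt} {g j g' j' : ℕ} (hj : j ≤ s) (hj' : j' ≤ s)
    (h1 : pos s (L g j) ∈ t) (h2 : pos s (L g' j') ∈ t)
    (hne : pos s (L g j) ≠ pos s (L g' j')) : wt s Gs t = 0 := by
  by_contra h0
  obtain ⟨g'', -, i, hi, j'', -, hj'', -, rfl⟩ := wt_spec (Nat.one_le_iff_ne_zero.2 h0)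
  have key : ∀ g j, j ≤ s → pos s (L g j) ∈ triU s g'' i j'' → L g j = L g'' j'' := by
    intro g j hj h
    simp only [triU, Finset.mem_insert, Finset.mem_singleton] at h
    rcases h with h | h | h
    · exact absurd (pos_inj (s := s) (show Valid s (L g j) from hj)
        (show Valid s (U g'' i) from by change i ≤ s; omega) h) (by simp)
    · exact absurd (pos_inj (s := s) (show Valid s (L g j) from hj)
        (show Valid s (U g'' (i + 1)) from hi) h) (by simp)
    · exact pos_inj (s := s) (show Valid s (L g j) from hj) (show Valid s (L g'' j'') from hj'') h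
  apply hne
  rw [key g j hj h1, key g' j' hj' h2]

theorem triU_ne {g i j : ℕ} (hi : i < s) (hj : j ≤ s) :
    pos s (U g i) ≠ pos s (U g (i + 1)) ∧ pos s (U g i) ≠ pos s (L g j) ∧
      pos s (U g (i + 1)) ≠ pos s (L g j) :=
  ne_of_det (det_U_L hi hj).ne

/-- the case where the lower vertex is `d` -/
theorem flip_case {g i j : ℕ} (hm : 0 < m) (hGs : ∀ g ∈ Gs, g < m) (hg : g ∈ Gs) (hi : i < s)
    (hj1 : 1 ≤ j) (hj : j ≤ s) {a b c d : Pt} (h1 : Good s m Gs {a, b, c})
    (h2 : Good s m Gs {a, b, d}) (hd : d = pos s (L g j))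
    (hac : (a = pos s (U g i) ∧ c = pos s (U g (i + 1))) ∨
      (a = pos s (U g (i + 1)) ∧ c = pos s (U g i))) :
    wt s Gs {b, c, d} = 0 ∧ j ≤ 1 + wt s Gs {a, b, c} := by
  have e : ({a, b, c} : Finset Pt) = {pos s (U g i), pos s (U g (i + 1)), b} := by
    ext x
    rcases hac with ⟨rfl, rfl⟩ | ⟨rfl, rfl⟩ <;>
    · simp only [Finset.mem_insert, Finset.mem_singleton]
      tauto
  have hb := h1.adm b (by simp)
  have hdet : det (pos s (U g i)) (pos s (U g (i + 1))) b ≠ 0 := by
    refine det_ne_zero_of_nonempty ?_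
    rw [← e]
    exact h1.nd
  have hseg : segment ℝ (pos s (L g j)) b ⊆ Poly s m := by
    rw [← hd]
    exact ((hull_convex _).segment_subset (mem_hull_self (by simp)) (mem_hull_self (by simp))).trans
      h2.sub
  obtain ⟨j', hj', hbj, hjj⟩ := apex hm (hGs g hg) hi hj1 hj
    (hb.imp id fun h => h g hg) hdet (by rw [← e]; exact h1.sub) hseg
  have hbd : b ≠ d := (ne_of_det (det_ne_zero_of_nonempty h2.nd)).2.2
  constructor
  · refine wt_two_L (g := g) (j := j') (g' := g) (j' := j) hj' hj ?_ ?_ ?_
    · rw [← hbj]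
      simp
    · rw [← hd]
      simp
    · rw [← hbj, ← hd]
      exact hbd
  · have h5 := le_wt (s := s) (Gs := Gs) hg hi hj'
    have h6 : triU s g i j' = {a, b, c} := by
      rw [triU, e, hbj]
    rw [h6] at h5
    omega

/-- the key inequality for a flip -/
theorem flip_key (hm : 0 < m) (hGs : ∀ g ∈ Gs, g < m) {a b c d z : Pt}
    (h1 : Good s m Gs {a, b, c}) (h2 : Good s m Gs {a, b, d}) (hz : z ∈ openSegment ℝ a b)
    (hz' : z ∈ openSegment ℝ c d) (hw : 1 ≤ wt s Gs {a, c, d}) :
    wt s Gs {b, c, d} = 0 ∧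
      wt s Gs {a, c, d} ≤ 1 + wt s Gs {a, b, c} + wt s Gs {a, b, d} := by
  obtain ⟨g, hg, i, hi, j, hj1, hj, hwj, ht⟩ := wt_spec hw
  obtain ⟨n1, n2, n3⟩ := triU_ne (s := s) (g := g) hi hj
  set u := pos s (U g i) with hu
  set w := pos s (U g (i + 1)) with hw'
  set l := pos s (L g j) with hl
  have ht' : ({a, c, d} : Finset Pt) = {u, w, l} := ht
  have hul : u ∈ ({a, c, d} : Finset Pt) := by rw [ht']; simp
  have hwl : w ∈ ({a, c, d} : Finset Pt) := by rw [ht']; simp
  have hll : l ∈ ({a, c, d} : Finset Pt) := by rw [ht']; simp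
  simp only [Finset.mem_insert, Finset.mem_singleton] at hul hwl hll
  rw [hwj]
  rcases hll with hla | hlc | hld
  · -- `l = a` is impossible
    exfalso
    have hcd : (c = u ∧ d = w) ∨ (c = w ∧ d = u) := by
      rcases hul with h | h | h
      · exact absurd (h.trans hla.symm) n2
      · rcases hwl with h' | h' | h'
        · exact absurd (h'.trans hla.symm) n3
        · exact absurd (h.trans h'.symm) n1
        · exact Or.inl ⟨h.symm, h'.symm⟩
      · rcases hwl with h' | h' | h'
        · exact absurd (h'.trans hla.symm) n3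
        · exact Or.inr ⟨h'.symm, h.symm⟩
        · exact absurd (h.trans h'.symm) n1
    have hzuw : z ∈ openSegment ℝ u w := by
      rcases hcd with ⟨rfl, rfl⟩ | ⟨rfl, rfl⟩
      · exact hz'
      · rw [openSegment_symm]
        exact hz'
    obtain ⟨p, q, hp, hq, hpq, hzz⟩ := hzuw
    have e1 : z.1 = p * u.1 + q * w.1 := by
      rw [← hzz]
      simp only [Prod.fst_add, Prod.smul_fst, smul_eq_mul]
    have e2 : z.2 = p * u.2 + q * w.2 := by
      rw [← hzz]
      simp only [Prod.snd_add, Prod.smul_snd, smul_eq_mul]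
    have huw : w.1 = u.1 + 1 := by
      rw [hu, hw']
      simp only [pos, xn]
      push_cast
      ring
    have hp1 : p = 1 - q := by linarith
    have hzdet : det u w z = 0 := by
      simp only [det, e1, e2, hp1]
      ring
    have hseg : segment ℝ z b ⊆ Poly s m := by
      have mz : z ∈ hull {a, b, c} := by
        refine (hull_convex _).segment_subset (x := a) (y := b) (mem_hull_self (by simp))
          (mem_hull_self (by simp)) (openSegment_subset_segment _ _ _ hz)
      exact ((hull_convex _).segment_subset mz (mem_hull_self (by simp))).trans h1.sub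
    have h5 := below_of_segment hm (hGs g hg) hi (z := z) (b := b)
      (by rw [← hu, e1, huw, hp1]; nlinarith) (by rw [← hw', e1, huw, hp1]; nlinarith) hzdet hseg
    have h6 : det u w a < 0 := by
      rw [← hla]
      exact det_U_L hi hj
    obtain ⟨p', q', hp', hq', hpq', hzz'⟩ := hz
    have f1 : z.1 = p' * a.1 + q' * b.1 := by
      rw [← hzz']
      simp only [Prod.fst_add, Prod.smul_fst, smul_eq_mul]
    have f2 : z.2 = p' * a.2 + q' * b.2 := by
      rw [← hzz']
      simp only [Prod.snd_add, Prod.smul_snd, smul_eq_mul]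
    have h7 : det u w z = p' * det u w a + q' * det u w b := by
      simp only [det, f1, f2]
      rw [show p' = 1 - q' by linarith]
      ring
    have h8 : p' * det u w a < 0 := mul_neg_of_pos_of_neg hp' h6
    have h9 : q' * det u w b ≤ 0 := mul_nonpos_of_nonneg_of_nonpos hq'.le h5
    linarith
  · -- `l = c`
    have had : (a = u ∧ d = w) ∨ (a = w ∧ d = u) := by
      rcases hul with h | h | h
      · rcases hwl with h' | h' | h'
        · exact absurd (h.trans h'.symm) n1
        · exact absurd (h'.trans hlc.symm) n3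
        · exact Or.inl ⟨h.symm, h'.symm⟩
      · exact absurd (h.trans hlc.symm) n2
      · rcases hwl with h' | h' | h'
        · exact Or.inr ⟨h'.symm, h.symm⟩
        · exact absurd (h'.trans hlc.symm) n3
        · exact absurd (h.trans h'.symm) n1
    obtain ⟨r1, r2⟩ := flip_case hm hGs hg hi hj1 hj h2 h1 hlc.symm had
    have e : ({b, d, c} : Finset Pt) = {b, c, d} := by
      ext x
      simp only [Finset.mem_insert, Finset.mem_singleton]
      tauto
    rw [e] at r1
    exact ⟨r1, by omega⟩
  · -- `l = d`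
    have hac : (a = u ∧ c = w) ∨ (a = w ∧ c = u) := by
      rcases hul with h | h | h
      · rcases hwl with h' | h' | h'
        · exact absurd (h.trans h'.symm) n1
        · exact Or.inl ⟨h.symm, h'.symm⟩
        · exact absurd (h'.trans hld.symm) n3
      · rcases hwl with h' | h' | h'
        · exact Or.inr ⟨h'.symm, h.symm⟩
        · exact absurd (h.trans h'.symm) n1
        · exact absurd (h'.trans hld.symm) n3
      · exact absurd (h.trans hld.symm) n2
    obtain ⟨r1, r2⟩ := flip_case hm hGs hg hi hj1 hj h1 h2 hld.symm hac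
    exact ⟨r1, by omega⟩

/-- the triangles after a flip are good -/
theorem good_flip {a b c d z : Pt} (h1 : Good s m Gs {a, b, c}) (h2 : Good s m Gs {a, b, d})
    (hz : z ∈ openSegment ℝ a b) (hz' : z ∈ openSegment ℝ c d) : Good s m Gs {a, c, d} := by
  obtain ⟨p', q', hp', hq', hpq', hzz'⟩ := hz
  have f1 : z.1 = p' * a.1 + q' * b.1 := by
    rw [← hzz']
    simp only [Prod.fst_add, Prod.smul_fst, smul_eq_mul]
  have f2 : z.2 = p' * a.2 + q' * b.2 := by
    rw [← hzz']
    simp only [Prod.snd_add, Prod.smul_snd, smul_eq_mul]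
  obtain ⟨p, q, hp, hq, hpq, hzz⟩ := hz'
  have e1 : z.1 = p * c.1 + q * d.1 := by
    rw [← hzz]
    simp only [Prod.fst_add, Prod.smul_fst, smul_eq_mul]
  have e2 : z.2 = p * c.2 + q * d.2 := by
    rw [← hzz]
    simp only [Prod.snd_add, Prod.smul_snd, smul_eq_mul]
  have d1 := det_ne_zero_of_nonempty h1.nd
  have hdet : det a c d ≠ 0 := by
    have g1 : det a c z = q' * det a c b := by
      simp only [det, f1, f2]
      rw [show p' = 1 - q' by linarith]
      ring
    have g2 : det a c z = q * det a c d := by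
      simp only [det, e1, e2]
      rw [show p = 1 - q by linarith]
      ring
    intro h0
    rw [h0, mul_zero] at g2
    rw [g2, det_swap'] at g1
    have : q' * - det a b c = 0 := g1.symm
    rcases mul_eq_zero.1 this with h | h
    · linarith
    · exact d1 (by linarith)
  refine ⟨card_of_det hdet, interior_hull_nonempty' hdet, ?_, ?_⟩
  · intro x hx
    rw [hull_triple, mem_hull3] at hx
    obtain ⟨α, γ, δ, hα, hγ, hδ, hsum, x1, x2⟩ := hx
    rcases le_total (δ * p) (γ * q) with hc | hc
    · apply h1.sub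
      rw [hull_triple, mem_hull3]
      refine ⟨α + δ / q * p', δ / q * q', γ - δ / q * p, by positivity, by positivity, ?_, ?_, ?_,
        ?_⟩
      · rw [sub_nonneg, div_mul_eq_mul_div, div_le_iff₀ hq]
        exact hc
      · have : δ / q * (p' + q') - δ / q * p = δ := by
          rw [hpq', mul_one, show p = 1 - q by linarith]
          field_simp
          ring
        linarith
      · have : δ / q * z.1 = δ / q * p * c.1 + δ * d.1 := by
          rw [e1]
          field_simp
        rw [x1]
        have h5 : δ / q * p' * a.1 + δ / q * q' * b.1 = δ / q * z.1 := by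
          rw [f1]
          ring
        linarith
      · have : δ / q * z.2 = δ / q * p * c.2 + δ * d.2 := by
          rw [e2]
          field_simp
        rw [x2]
        have h5 : δ / q * p' * a.2 + δ / q * q' * b.2 = δ / q * z.2 := by
          rw [f2]
          ring
        linarith
    · apply h2.sub
      rw [hull_triple, mem_hull3]
      refine ⟨α + γ / p * p', γ / p * q', δ - γ / p * q, by positivity, by positivity, ?_, ?_, ?_,
        ?_⟩
      · rw [sub_nonneg, div_mul_eq_mul_div, div_le_iff₀ hp]
        exact hc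
      · have : γ / p * (p' + q') - γ / p * q = γ := by
          rw [hpq', mul_one, show q = 1 - p by linarith]
          field_simp
          ring
        linarith
      · have : γ / p * z.1 = γ * c.1 + γ / p * q * d.1 := by
          rw [e1]
          field_simp
        rw [x1]
        have h5 : γ / p * p' * a.1 + γ / p * q' * b.1 = γ / p * z.1 := by
          rw [f1]
          ring
        linarith
      · have : γ / p * z.2 = γ * c.2 + γ / p * q * d.2 := by
          rw [e2]
          field_simp
        rw [x2]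
        have h5 : γ / p * p' * a.2 + γ / p * q' * b.2 = γ / p * z.2 := by
          rw [f2]
          ring
        linarith
  · intro x hx
    simp only [Finset.mem_insert, Finset.mem_singleton] at hx
    rcases hx with rfl | rfl | rfl
    · exact h1.adm _ (by simp)
    · exact h1.adm _ (by simp)
    · exact h2.adm _ (by simp)

theorem flip_le (hm : 0 < m) (hGs : ∀ g ∈ Gs, g < m) {T T' : Finset (Finset Pt)}
    (hT : ∀ t ∈ T, Good s m Gs t) (h : IsFlip T T') :
    (∀ t ∈ T', Good s m Gs t) ∧ ∑ t ∈ T', wt s Gs t ≤ ∑ t ∈ T, wt s Gs t + 1 := by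
  obtain ⟨a, b, c, d, h1, h2, hcd, ⟨z, hz, hz'⟩, rfl⟩ := h
  have g1 := hT _ h1
  have g2 := hT _ h2
  have sw : ∀ x : Pt, ({a, b, x} : Finset Pt) = {b, a, x} := by
    intro x
    ext y
    simp only [Finset.mem_insert, Finset.mem_singleton]
    tauto
  have g1' : Good s m Gs {b, a, c} := by rw [← sw]; exact g1
  have g2' : Good s m Gs {b, a, d} := by rw [← sw]; exact g2
  have hzs : z ∈ openSegment ℝ b a := by
    rw [openSegment_symm]
    exact hz
  constructor
  · intro t ht
    rcases Finset.mem_union.1 ht with ht | ht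
    · exact hT t (Finset.mem_sdiff.1 ht).1
    · simp only [Finset.mem_insert, Finset.mem_singleton] at ht
      rcases ht with rfl | rfl
      · exact good_flip g1 g2 hz hz'
      · exact good_flip g1' g2' hzs hz'
  · have hne : ({a, b, c} : Finset Pt) ≠ {a, b, d} := by
      intro he
      have hc : c ∈ ({a, b, d} : Finset Pt) := by rw [← he]; simp
      have n1 := ne_of_det (det_ne_zero_of_nonempty g1.nd)
      simp only [Finset.mem_insert, Finset.mem_singleton] at hc
      rcases hc with h | h | h
      · exact n1.2.1 h.symm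
      · exact n1.2.2 h.symm
      · exact hcd h
    have hsub : ({{a, b, c}, {a, b, d}} : Finset (Finset Pt)) ⊆ T := by
      intro t ht
      simp only [Finset.mem_insert, Finset.mem_singleton] at ht
      rcases ht with rfl | rfl
      · exact h1
      · exact h2
    have s1 := Finset.sum_sdiff (f := wt s Gs) hsub
    rw [Finset.sum_pair hne] at s1
    have s2 : ∑ t ∈ (T \ {{a, b, c}, {a, b, d}}) ∪ {{a, c, d}, {b, c, d}}, wt s Gs t ≤
        ∑ t ∈ T \ {{a, b, c}, {a, b, d}}, wt s Gs t +
          ∑ t ∈ {{a, c, d}, {b, c, d}}, wt s Gs t := by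
      rw [← Finset.sum_union_inter]
      exact Nat.le_add_right _ _
    have s3 : ∑ t ∈ ({{a, c, d}, {b, c, d}} : Finset (Finset Pt)), wt s Gs t ≤
        wt s Gs {a, c, d} + wt s Gs {b, c, d} := by
      by_cases he : ({a, c, d} : Finset Pt) = {b, c, d}
      · rw [he]
        simp
      · rw [Finset.sum_pair he]
    have s4 : wt s Gs {a, c, d} + wt s Gs {b, c, d} ≤
        1 + wt s Gs {a, b, c} + wt s Gs {a, b, d} := by
      rcases Nat.eq_zero_or_pos (wt s Gs {a, c, d}) with k1 | k1
      · rcases Nat.eq_zero_or_pos (wt s Gs {b, c, d}) with k2 | k2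
        · omega
        · have := flip_key hm hGs g1' g2' hzs hz' k2
          rw [← sw, ← sw] at this
          omega
      · have := flip_key hm hGs g1 g2 hz hz' k1
        omega
    omega

theorem flipPath_le (hm : 0 < m) (hGs : ∀ g ∈ Gs, g < m) {T T' : Finset (Finset Pt)} {N : ℕ}
    (hT : ∀ t ∈ T, Good s m Gs t) (h : FlipPath N T T') :
    (∀ t ∈ T', Good s m Gs t) ∧ ∑ t ∈ T', wt s Gs t ≤ ∑ t ∈ T, wt s Gs t + N := by
  induction h with
  | refl => exact ⟨hT, le_rfl⟩
  | step _ h' ih =>
    obtain ⟨i1, i2⟩ := ih hT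
    obtain ⟨j1, j2⟩ := flip_le hm hGs i1 h'
    exact ⟨j1, by omega⟩

end Weight

end Pool.Agent.Q107.Flip
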