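import Pool.Agent.Q107.Flip.Polygon

/-!
# The polygon: a chain of gadgets
-/

set_option autoImplicit false

namespace Pool.Agent.Q107.Flip

/-- Names of the vertices. -/
inductive Vx : Type
  | C (g : ℕ)
  | D (g : ℕ)
  | U (g i : ℕ)
  | L (g j : ℕ)

open Vx

section Gadget

variable (s : ℕ)

/-- width of a gadget -/
def wid : ℕ := 2 * s + 4

/-- half of the height of the waist -/
def hgt : ℝ := 2 * ((s : ℝ) + 1) ^ 2

/-- first coordinate -/
def xn : Vx → ℕ
  | C g => g * wid s
  | D g => g * wid s + 1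
  | U g i => g * wid s + (2 + i)
  | L g j => g * wid s + (s + 3 + j)

/-- second coordinate -/
noncomputable def yv : Vx → ℝ
  | C g => g * (2 * hgt s + 1) - hgt s - 1
  | D g => g * (2 * hgt s + 1) - hgt s
  | U g i => g * (2 * hgt s + 1) + hgt s + ((s : ℝ) - i) * ((s : ℝ) - i + 1)
  | L g j => g * (2 * hgt s + 1) - hgt s - (j : ℝ) * (j + 1)

/-- position of a vertex -/
noncomputable def pos (v : Vx) : Pt := ((xn s v : ℝ), yv s v)

/-- the index is within the gadget -/
def Valid : Vx → Prop
  | C _ => True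
  | D _ => True
  | U _ i => i ≤ s
  | L _ j => j ≤ s

variable {s}

theorem xn_inj {v w : Vx} (hv : Valid s v) (hw : Valid s w) (h : xn s v = xn s w) : v = w := by
  have key : ∀ (g r g' r' : ℕ), r < wid s → r' < wid s → g * wid s + r = g' * wid s + r' →
      g = g' ∧ r = r' := by
    intro g r g' r' hr hr' he
    have hpos : 0 < wid s := by unfold wid; omega
    have h1 : (g * wid s + r) / wid s = g := by
      rw [mul_comm, Nat.mul_add_div hpos, Nat.div_eq_of_lt hr, add_zero]
    have h2 : (g' * wid s + r') / wid s = g' := by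
      rw [mul_comm, Nat.mul_add_div hpos, Nat.div_eq_of_lt hr', add_zero]
    have h3 : g = g' := by rw [← h1, he, h2]
    subst h3
    exact ⟨rfl, by omega⟩
  have hpos : 0 < wid s := by unfold wid; omega
  rcases v with g | g | ⟨g, i⟩ | ⟨g, i⟩ <;> rcases w with g' | g' | ⟨g', i'⟩ | ⟨g', i'⟩ <;>
    simp only [xn, Valid] at h hv hw
  · obtain ⟨rfl, -⟩ := key g 0 g' 0 hpos hpos (by simpa using h)
    rfl
  · have := (key g 0 g' 1 hpos (by unfold wid; omega) (by simpa using h)).2
    omega
  · have := (key g 0 g' (2 + i') hpos (by unfold wid; omega) (by simpa using h)).2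
    omega
  · have := (key g 0 g' (s + 3 + i') hpos (by unfold wid; omega) (by simpa using h)).2
    omega
  · have := (key g 1 g' 0 (by unfold wid; omega) hpos (by simpa using h)).2
    omega
  · obtain ⟨rfl, -⟩ := key g 1 g' 1 (by unfold wid; omega) (by unfold wid; omega) h
    rfl
  · have := (key g 1 g' (2 + i') (by unfold wid; omega) (by unfold wid; omega) h).2
    omega
  · have := (key g 1 g' (s + 3 + i') (by unfold wid; omega) (by unfold wid; omega) h).2
    omega
  · have := (key g (2 + i) g' 0 (by unfold wid; omega) hpos (by simpa using h)).2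
    omega
  · have := (key g (2 + i) g' 1 (by unfold wid; omega) (by unfold wid; omega) h).2
    omega
  · obtain ⟨rfl, h2⟩ := key g (2 + i) g' (2 + i') (by unfold wid; omega) (by unfold wid; omega) h
    have : i = i' := by omega
    rw [this]
  · have := (key g (2 + i) g' (s + 3 + i') (by unfold wid; omega) (by unfold wid; omega) h).2
    omega
  · have := (key g (s + 3 + i) g' 0 (by unfold wid; omega) hpos (by simpa using h)).2
    omega
  · have := (key g (s + 3 + i) g' 1 (by unfold wid; omega) (by unfold wid; omega) h).2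
    omega
  · have := (key g (s + 3 + i) g' (2 + i') (by unfold wid; omega) (by unfold wid; omega) h).2
    omega
  · obtain ⟨rfl, h2⟩ := key g (s + 3 + i) g' (s + 3 + i') (by unfold wid; omega)
      (by unfold wid; omega) h
    have : i = i' := by omega
    rw [this]

theorem pos_inj {v w : Vx} (hv : Valid s v) (hw : Valid s w) (h : pos s v = pos s w) : v = w := by
  refine xn_inj hv hw ?_
  have := congrArg Prod.fst h
  simp only [pos] at this
  exact_mod_cast this

/-! ### Orientations -/

theorem hgt_eq : hgt s = 2 * ((s : ℝ) + 1) ^ 2 := rfl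

theorem hgt_pos : 0 < hgt s := by unfold hgt; positivity

theorem det_CLD (g : ℕ) : 0 < det (pos s (C g)) (pos s (L g 0)) (pos s (D g)) := by
  have e : det (pos s (C g)) (pos s (L g 0)) (pos s (D g)) = (s : ℝ) + 2 := by
    simp only [det, pos, xn, yv]
    push_cast
    ring
  rw [e]
  positivity

theorem det_DLU (g : ℕ) : 0 < det (pos s (D g)) (pos s (L g 0)) (pos s (U g 0)) := by
  have e : det (pos s (D g)) (pos s (L g 0)) (pos s (U g 0)) =
      ((s : ℝ) + 2) * (2 * hgt s + s * (s + 1)) := by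
    simp only [det, pos, xn, yv]
    push_cast
    ring
  rw [e]
  have := hgt_pos (s := s)
  positivity

theorem det_UCL (g : ℕ) : det (pos s (U g s)) (pos s (C (g + 1))) (pos s (L g s)) < 0 := by
  have e : det (pos s (U g s)) (pos s (C (g + 1))) (pos s (L g s)) =
      - (((s : ℝ) + 2) * (2 * hgt s + s * (s + 1))) := by
    simp only [det, pos, xn, yv, wid]
    push_cast
    ring
  rw [e]
  have := hgt_pos (s := s)
  have : 0 < ((s : ℝ) + 2) * (2 * hgt s + s * (s + 1)) := by positivity
  linarith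

theorem det_UDC (g : ℕ) : det (pos s (U g s)) (pos s (D (g + 1))) (pos s (C (g + 1))) < 0 := by
  have e : det (pos s (U g s)) (pos s (D (g + 1))) (pos s (C (g + 1))) = - ((s : ℝ) + 2) := by
    simp only [det, pos, xn, yv, wid]
    push_cast
    ring
  rw [e]
  have : (0 : ℝ) ≤ s := Nat.cast_nonneg s
  linarith

theorem det_ULU (g : ℕ) {i j : ℕ} (hi : i < s) (hj : j ≤ s) :
    0 < det (pos s (U g i)) (pos s (L g j)) (pos s (U g (i + 1))) := by
  obtain ⟨r, rfl⟩ : ∃ r, s = i + r := ⟨s - i, by omega⟩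
  have e : det (pos (i + r) (U g i)) (pos (i + r) (L g j)) (pos (i + r) (U g (i + 1))) =
      2 * hgt (i + r) + j ^ 2 + j - r ^ 2 - r - 2 * r * j := by
    simp only [det, pos, xn, yv]
    push_cast
    ring
  rw [e, hgt_eq]
  have h1 : (j : ℝ) ≤ i + r := by exact_mod_cast hj
  have h2 : (0 : ℝ) ≤ i := Nat.cast_nonneg i
  have h3 : (0 : ℝ) ≤ r := Nat.cast_nonneg r
  have h4 : (0 : ℝ) ≤ j := Nat.cast_nonneg j
  push_cast
  nlinarith [mul_nonneg h3 (sub_nonneg.2 h1), mul_nonneg h2 h3, mul_nonneg h2 h2, mul_nonneg h3 h3]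

theorem det_ULL (g : ℕ) {i j : ℕ} (hi : i ≤ s) (hj : j < s) :
    det (pos s (U g i)) (pos s (L g (j + 1))) (pos s (L g j)) < 0 := by
  obtain ⟨r, rfl⟩ : ∃ r, s = i + r := ⟨s - i, by omega⟩
  have e : det (pos (i + r) (U g i)) (pos (i + r) (L g (j + 1))) (pos (i + r) (L g j)) =
      - (2 * hgt (i + r) - j ^ 2 - 3 * j + r ^ 2 - r - 2 * r * j - 2) := by
    simp only [det, pos, xn, yv]
    push_cast
    ring
  rw [e, hgt_eq]
  have h1 : (j : ℝ) + 1 ≤ i + r := by exact_mod_cast hj
  have h2 : (0 : ℝ) ≤ i := Nat.cast_nonneg i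
  have h3 : (0 : ℝ) ≤ r := Nat.cast_nonneg r
  have h4 : (0 : ℝ) ≤ j := Nat.cast_nonneg j
  push_cast
  nlinarith [mul_nonneg h3 (sub_nonneg.2 h1), mul_nonneg h2 h3, mul_nonneg h2 h2, mul_nonneg h3 h3,
    mul_nonneg h4 (sub_nonneg.2 h1)]

/-- first coordinates in order -/
theorem x_lt {v w : Vx} (h : xn s v < xn s w) : (pos s v).1 < (pos s w).1 := by
  simp only [pos]
  exact_mod_cast h

end Gadget

end Pool.Agent.Q107.Flip
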