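import Pool.Agent.Q107.Flip.Poly

/-!
# Local geometry of the gadgets
-/

set_option autoImplicit false

namespace Pool.Agent.Q107.Flip

open Vx

theorem mem_pairs_infix {l A B : List Pt} {e : Pt × Pt} (h : e ∈ pairs l) :
    e ∈ pairs (A ++ l ++ B) := by
  obtain ⟨l₁, l₂, rfl⟩ := mem_pairs_iff.1 h
  exact mem_pairs_iff.2 ⟨A ++ l₁, l₂ ++ B, by simp⟩

section Local

variable {s : ℕ}

theorem Ls_concat (g j k : ℕ) : Ls s g j (k + 1) = Ls s g j k ++ [pos s (L g (j + k))] := by
  simp [Ls, List.range'_1_concat]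

theorem pairs_Us (g k : ℕ) {i : ℕ} (hi : i + 1 < k) :
    (pos s (U g i), pos s (U g (i + 1))) ∈ pairs (Us s g k) := by
  induction k with
  | zero => omega
  | succ k ih =>
    rcases Nat.lt_succ_iff_lt_or_eq.1 hi with h | h
    · have := mem_pairs_infix (A := []) (B := [pos s (U g k)]) (ih h)
      rw [Us_succ]
      simpa using this
    · subst h
      rw [Us_succ, Us_succ, mem_pairs_iff]
      exact ⟨Us s g i, [], by simp⟩

theorem pairs_Ls (g k : ℕ) {i : ℕ} (hi : i + 1 < k) :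
    (pos s (L g i), pos s (L g (i + 1))) ∈ pairs (Ls s g 0 k) := by
  induction k with
  | zero => omega
  | succ k ih =>
    rcases Nat.lt_succ_iff_lt_or_eq.1 hi with h | h
    · have := mem_pairs_infix (A := []) (B := [pos s (L g (0 + k))]) (ih h)
      rw [Ls_concat]
      simpa using this
    · subst h
      rw [Ls_concat, Ls_concat, mem_pairs_iff]
      exact ⟨Ls s g 0 i, [], by simp⟩

theorem uppI_infix {m g : ℕ} (hg : g < m) :
    ∃ A B, uppI s m = A ++ Us s g (s + 1) ++ B := by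
  induction m with
  | zero => omega
  | succ m ih =>
    rcases Nat.lt_succ_iff_lt_or_eq.1 hg with h | rfl
    · obtain ⟨A, B, e⟩ := ih h
      exact ⟨A, B ++ pos s (D m) :: Us s m (s + 1), by rw [uppI, e]; simp⟩
    · exact ⟨uppI s g ++ [pos s (D g)], [], by rw [uppI]; simp⟩

theorem lowI_infix {m g : ℕ} (hg : g < m) :
    ∃ A B, lowI s m = A ++ Ls s g 0 (s + 1) ++ B := by
  induction m with
  | zero => omega
  | succ m ih =>
    rcases Nat.lt_succ_iff_lt_or_eq.1 hg with h | rfl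
    · obtain ⟨A, B, e⟩ := ih h
      exact ⟨A, B ++ pos s (C m) :: Ls s m 0 (s + 1), by rw [lowI, e]; simp⟩
    · exact ⟨lowI s g ++ [pos s (C g)], [], by rw [lowI]; simp⟩

theorem pairs_upp {m g i : ℕ} (hg : g < m) (hi : i < s) :
    (pos s (U g i), pos s (U g (i + 1))) ∈ pairs (upp s m) := by
  obtain ⟨A, B, e⟩ := uppI_infix (s := s) hg
  have h := mem_pairs_infix (A := pos s (C 0) :: A) (B := B ++ [pos s (D m)])
    (pairs_Us (s := s) g (s + 1) (i := i) (by omega))
  rw [upp, e]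
  simpa using h

theorem pairs_low {m g j : ℕ} (hg : g < m) (hj : j < s) :
    (pos s (L g j), pos s (L g (j + 1))) ∈ pairs (low s m) := by
  obtain ⟨A, B, e⟩ := lowI_infix (s := s) hg
  have h := mem_pairs_infix (A := A) (B := B ++ [pos s (C m), pos s (D m)])
    (pairs_Ls (s := s) g (s + 1) (i := j) (by omega))
  rw [low, e]
  simpa using h

/-! ### Points of the polygon -/

theorem poly_top {m g i : ℕ} (hm : 0 < m) (hg : g < m) (hi : i < s) {z : Pt} (hz : z ∈ Poly s m)
    (h1 : (pos s (U g i)).1 ≤ z.1) (h2 : z.1 ≤ (pos s (U g (i + 1))).1) :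
    det (pos s (U g i)) (pos s (U g (i + 1))) z ≤ 0 := by
  rw [det_nonpos_iff (x_lt (by simp only [xn]; omega))]
  have h3 := hz.2.2.2
  have h4 : top s m z.1 = lin (pos s (U g i)) (pos s (U g (i + 1))) z.1 :=
    pl_of_mem_pairs (upp_sorted hm) (pairs_upp hg hi) h1 h2
  rw [h4] at h3
  exact h3

theorem poly_bot_at {m : ℕ} {w : Pt} (hw : w ∈ low s m) {z : Pt} (hz : z ∈ Poly s m)
    (h : z.1 = w.1) : w.2 ≤ z.2 := by
  have h3 := hz.2.2.1
  rw [h] at h3
  rw [← pl_of_mem (low_sorted m) hw]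
  exact h3

theorem poly_top_at {m : ℕ} (hm : 0 < m) {w : Pt} (hw : w ∈ upp s m) {z : Pt} (hz : z ∈ Poly s m)
    (h : z.1 = w.1) : z.2 ≤ w.2 := by
  have h3 := hz.2.2.2
  rw [h] at h3
  rw [← pl_of_mem (upp_sorted hm) hw]
  exact h3

theorem L_mem_low {m g j : ℕ} (hg : g < m) (hj : j ≤ s) : pos s (L g j) ∈ low s m := by
  rw [low, List.mem_append, mem_lowI]
  exact Or.inl (Or.inr ⟨g, hg, j, hj, rfl⟩)

theorem C_mem_low {m g : ℕ} (hg : g ≤ m) : pos s (C g) ∈ low s m := by
  rw [low, List.mem_append, mem_lowI]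
  rcases Nat.lt_or_eq_of_le hg with h | rfl
  · exact Or.inl (Or.inl ⟨g, h, rfl⟩)
  · exact Or.inr (by simp)

theorem D_mem_upp {m g : ℕ} (hg : g ≤ m) : pos s (D g) ∈ upp s m := by
  rw [upp, List.mem_cons, List.mem_append, mem_uppI]
  rcases Nat.lt_or_eq_of_le hg with h | rfl
  · exact Or.inr (Or.inl (Or.inl ⟨g, h, rfl⟩))
  · exact Or.inr (Or.inr (by simp))

/-! ### Segments -/

/-- the point of a segment with a given first coordinate -/
theorem exists_mem_segment {u b : Pt} {X : ℝ} (h1 : 0 < (X - u.1) * (b.1 - u.1))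
    (h2 : (X - u.1) * (b.1 - u.1) ≤ (b.1 - u.1) * (b.1 - u.1)) :
    ∃ z ∈ segment ℝ u b, z.1 = X ∧ z.2 = u.2 + (b.2 - u.2) * ((X - u.1) / (b.1 - u.1)) := by
  have hne : b.1 - u.1 ≠ 0 := by
    intro h
    rw [h] at h1
    simp at h1
  have hpos : 0 < (b.1 - u.1) * (b.1 - u.1) := mul_self_pos.2 hne
  set t := (X - u.1) / (b.1 - u.1) with ht
  have ht1 : t = (X - u.1) * (b.1 - u.1) / ((b.1 - u.1) * (b.1 - u.1)) := by
    rw [ht]
    field_simp
  have ht0 : 0 ≤ t := by
    rw [ht1]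
    positivity
  have ht2 : t ≤ 1 := by
    rw [ht1, div_le_one hpos]
    exact h2
  refine ⟨((1 - t) * u.1 + t * b.1, (1 - t) * u.2 + t * b.2),
    ⟨1 - t, t, by linarith, ht0, by ring, ?_⟩, ?_, ?_⟩
  · refine Prod.ext ?_ ?_ <;>
      simp only [Prod.fst_add, Prod.smul_fst, smul_eq_mul, Prod.snd_add, Prod.smul_snd]
  · simp only
    have : t * (b.1 - u.1) = X - u.1 := by
      rw [ht]
      field_simp
    linarith
  · simp only
    ring

/-- A point that is joined inside the polygon to an interior point of an upper edge lies below the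
line of this edge. -/
theorem below_of_segment {m g i : ℕ} (hm : 0 < m) (hg : g < m) (hi : i < s) {z b : Pt}
    (h1 : (pos s (U g i)).1 < z.1) (h2 : z.1 < (pos s (U g (i + 1))).1)
    (h0 : det (pos s (U g i)) (pos s (U g (i + 1))) z = 0) (hseg : segment ℝ z b ⊆ Poly s m) :
    det (pos s (U g i)) (pos s (U g (i + 1))) b ≤ 0 := by
  set u := pos s (U g i) with hu
  set w := pos s (U g (i + 1)) with hw
  set δ := min (min (z.1 - u.1) (w.1 - z.1)) 1 with hδ
  have hδ0 : 0 < δ := lt_min (lt_min (by linarith) (by linarith)) one_pos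
  have hδ1 : δ ≤ z.1 - u.1 := (min_le_left _ _).trans (min_le_left _ _)
  have hδ2 : δ ≤ w.1 - z.1 := (min_le_left _ _).trans (min_le_right _ _)
  have hδ3 : δ ≤ 1 := min_le_right _ _
  set t := δ / (|b.1 - z.1| + 1) with ht
  have habs : 0 ≤ |b.1 - z.1| := abs_nonneg _
  have ht0 : 0 < t := by positivity
  have ht1 : t ≤ 1 := by
    rw [ht, div_le_one (by positivity)]
    linarith
  have ht2 : |t * (b.1 - z.1)| ≤ δ := by
    rw [abs_mul, abs_of_pos ht0, ht, div_mul_eq_mul_div, div_le_iff₀ (by positivity)]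
    nlinarith
  have ht3 := abs_le.1 ht2
  set p : Pt := (z.1 + t * (b.1 - z.1), z.2 + t * (b.2 - z.2)) with hp
  have hmem : p ∈ segment ℝ z b := by
    refine ⟨1 - t, t, by linarith, ht0.le, by ring, ?_⟩
    refine Prod.ext ?_ ?_ <;>
      simp only [hp, Prod.fst_add, Prod.smul_fst, smul_eq_mul, Prod.snd_add, Prod.smul_snd] <;>
      ring
  have h3 := poly_top hm hg hi (hseg hmem) (by simp only [hp]; linarith) (by simp only [hp]; linarith)
  have h4 : det u w p = (1 - t) * det u w z + t * det u w b := by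
    simp only [det, hp]
    ring
  rw [← hu, ← hw, h4, h0, mul_zero, zero_add] at h3
  nlinarith

/-! ### Apexes -/

theorem det_U (g i : ℕ) (z : Pt) : det (pos s (U g i)) (pos s (U g (i + 1))) z =
    z.2 - yv s (U g i) + 2 * ((s : ℝ) - i) * (z.1 - (xn s (U g i) : ℝ)) := by
  simp only [det, pos, xn, yv]
  push_cast
  ring

theorem det_U_L {g i j : ℕ} (hi : i < s) (hj : j ≤ s) :
    det (pos s (U g i)) (pos s (U g (i + 1))) (pos s (L g j)) < 0 := by
  have := det_ULU (s := s) g hi hj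
  rw [det_swap'] at this
  linarith

theorem right_bound {m g i : ℕ} (hg : g < m) (hi : i < s) {b : Pt}
    (h : det (pos s (U g i)) (pos s (U g (i + 1))) b ≤ 0)
    (hseg : segment ℝ (pos s (U g i)) b ⊆ Poly s m) : b.1 < (((g + 1) * wid s : ℕ) : ℝ) := by
  by_contra hcon
  push Not at hcon
  obtain ⟨r, rfl⟩ : ∃ r, s = i + r := ⟨s - i, by omega⟩
  have hr : (0 : ℝ) < r := by exact_mod_cast (by omega : 0 < r)
  have hi0 : (0 : ℝ) ≤ i := Nat.cast_nonneg i
  rw [det_U] at h
  have eu : (pos (i + r) (U g i)).1 = (xn (i + r) (U g i) : ℝ) := rfl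
  have eu2 : (pos (i + r) (U g i)).2 = yv (i + r) (U g i) := rfl
  have eX : (((g + 1) * wid (i + r) : ℕ) : ℝ) - (xn (i + r) (U g i) : ℝ) = 2 * r + i + 2 := by
    simp only [xn, wid]
    push_cast
    ring
  set X := (((g + 1) * wid (i + r) : ℕ) : ℝ) with hX
  have h1 : 0 < X - (pos (i + r) (U g i)).1 := by
    rw [eu, eX]
    positivity
  have h2 : 0 < b.1 - (pos (i + r) (U g i)).1 := by linarith
  obtain ⟨z, hz, hz1, hz2⟩ := exists_mem_segment (u := pos (i + r) (U g i)) (b := b) (X := X)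
    (mul_pos h1 h2) (mul_le_mul_of_nonneg_right (by linarith) h2.le)
  have h3 := poly_bot_at (C_mem_low (s := i + r) (Nat.succ_le_of_lt hg)) (hseg hz) hz1
  set τ := (X - (pos (i + r) (U g i)).1) / (b.1 - (pos (i + r) (U g i)).1) with hτ
  have h4 : 0 ≤ τ := by positivity
  have h5 : τ * (b.1 - (pos (i + r) (U g i)).1) = X - (pos (i + r) (U g i)).1 := by
    rw [hτ]
    field_simp
  rw [hz2, eu2] at h3
  rw [eu] at h5
  have h6 : (b.2 - yv (i + r) (U g i)) * τ ≤
      - (2 * (r : ℝ)) * (X - (xn (i + r) (U g i) : ℝ)) := by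
    rw [← h5]
    have h7 : b.2 - yv (i + r) (U g i) ≤ - (2 * (r : ℝ)) * (b.1 - (xn (i + r) (U g i) : ℝ)) := by
      push_cast at h
      linarith
    calc (b.2 - yv (i + r) (U g i)) * τ
        ≤ (- (2 * (r : ℝ)) * (b.1 - (xn (i + r) (U g i) : ℝ))) * τ :=
          mul_le_mul_of_nonneg_right h7 h4
      _ = _ := by ring
  rw [eX] at h6
  have h8 : (pos (i + r) (C (g + 1))).2 = g * (2 * hgt (i + r) + 1) + hgt (i + r) := by
    simp only [pos, yv]
    push_cast
    ring
  have h9 : yv (i + r) (U g i) = g * (2 * hgt (i + r) + 1) + hgt (i + r) + r * (r + 1) := by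
    simp only [yv]
    push_cast
    ring
  rw [h8, h9] at h3
  rw [h9] at h6
  nlinarith [mul_nonneg hr.le hi0, mul_pos hr hr]

theorem left_slope {m g j : ℕ} (hg : g < m) (hj1 : 1 ≤ j) (hj : j ≤ s) {b : Pt}
    (hseg : segment ℝ (pos s (L g j)) b ⊆ Poly s m)
    (hb : b.1 ≤ (xn s (L g j) : ℝ) - 1) :
    2 * (j : ℝ) * ((xn s (L g j) : ℝ) - b.1) ≤ b.2 - yv s (L g j) := by
  have e1 : (pos s (L g j)).1 = (xn s (L g j) : ℝ) := rfl
  have e2 : (pos s (L g j)).2 = yv s (L g j) := rfl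
  set x := (xn s (L g j) : ℝ) with hx
  have h1 : 0 < (x - 1 - (pos s (L g j)).1) * (b.1 - (pos s (L g j)).1) := by
    rw [e1]
    exact mul_pos_of_neg_of_neg (by linarith) (by linarith)
  have h2 : (x - 1 - (pos s (L g j)).1) * (b.1 - (pos s (L g j)).1) ≤
      (b.1 - (pos s (L g j)).1) * (b.1 - (pos s (L g j)).1) := by
    rw [e1]
    nlinarith
  obtain ⟨z, hz, hz1, hz2⟩ := exists_mem_segment h1 h2
  have ex : (pos s (L g (j - 1))).1 = x - 1 := by
    obtain ⟨k, rfl⟩ : ∃ k, j = k + 1 := ⟨j - 1, by omega⟩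
    rw [hx]
    simp only [pos, xn, Nat.add_sub_cancel]
    push_cast
    ring
  have ey : (pos s (L g (j - 1))).2 = yv s (L g j) + 2 * j := by
    obtain ⟨k, rfl⟩ : ∃ k, j = k + 1 := ⟨j - 1, by omega⟩
    simp only [pos, yv, Nat.add_sub_cancel]
    push_cast
    ring
  have h3 := poly_bot_at (L_mem_low (s := s) hg (show j - 1 ≤ s by omega)) (hseg hz)
    (hz1.trans ex.symm)
  rw [hz2, ey, e1, e2] at h3
  have h4 : (b.2 - yv s (L g j)) * ((x - 1 - x) / (b.1 - x)) =
      (b.2 - yv s (L g j)) / (x - b.1) := by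
    have hne : x - b.1 ≠ 0 := by linarith
    have hne' : b.1 - x ≠ 0 := by linarith
    rw [show x - 1 - x = -1 by ring, show b.1 - x = -(x - b.1) by ring, neg_div_neg_eq]
    ring
  rw [h4] at h3
  have h5 : 2 * (j : ℝ) ≤ (b.2 - yv s (L g j)) / (x - b.1) := by linarith
  rwa [le_div_iff₀ (by linarith)] at h5

theorem left_bound {m g j : ℕ} (hm : 0 < m) (hg : g < m) (hj1 : 1 ≤ j) (hj : j ≤ s) {b : Pt}
    (hseg : segment ℝ (pos s (L g j)) b ⊆ Poly s m) : ((g * wid s + 1 : ℕ) : ℝ) < b.1 := by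
  by_contra hcon
  push Not at hcon
  have hj0 : (1 : ℝ) ≤ j := by exact_mod_cast hj1
  have hs0 : (0 : ℝ) ≤ s := Nat.cast_nonneg s
  have ex : (xn s (L g j) : ℝ) = ((g * wid s + 1 : ℕ) : ℝ) + (s + 2 + j) := by
    simp only [xn]
    push_cast
    ring
  set X := ((g * wid s + 1 : ℕ) : ℝ) with hX
  have e1 : (pos s (L g j)).1 = (xn s (L g j) : ℝ) := rfl
  have e2 : (pos s (L g j)).2 = yv s (L g j) := rfl
  have h0 := left_slope hg hj1 hj hseg (by rw [ex]; linarith)
  have h1 : 0 < (X - (pos s (L g j)).1) * (b.1 - (pos s (L g j)).1) := by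
    rw [e1, ex]
    exact mul_pos_of_neg_of_neg (by linarith) (by linarith)
  have h2 : (X - (pos s (L g j)).1) * (b.1 - (pos s (L g j)).1) ≤
      (b.1 - (pos s (L g j)).1) * (b.1 - (pos s (L g j)).1) := by
    rw [e1, ex]
    nlinarith
  obtain ⟨z, hz, hz1, hz2⟩ := exists_mem_segment h1 h2
  have h3 := poly_top_at hm (D_mem_upp (s := s) hg.le) (hseg hz) hz1
  rw [hz2, e1, e2, ex] at h3
  rw [ex] at h0
  set y := yv s (L g j) with hy
  have hden : 0 < X + (s + 2 + j) - b.1 := by linarith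
  have h4 : (b.2 - y) * ((X - (X + (s + 2 + j))) / (b.1 - (X + (s + 2 + j)))) =
      (b.2 - y) / (X + (s + 2 + j) - b.1) * (s + 2 + j) := by
    rw [show X - (X + (s + 2 + j)) = -(s + 2 + j : ℝ) by ring,
      show b.1 - (X + (s + 2 + j)) = -(X + (s + 2 + j) - b.1) by ring, neg_div_neg_eq]
    field_simp
  rw [h4] at h3
  have h5 : 2 * (j : ℝ) ≤ (b.2 - y) / (X + (s + 2 + j) - b.1) := by
    rw [le_div_iff₀ hden]
    exact h0
  have h6 : 2 * (j : ℝ) * (s + 2 + j) ≤ (b.2 - y) / (X + (s + 2 + j) - b.1) * (s + 2 + j) :=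
    mul_le_mul_of_nonneg_right h5 (by linarith)
  have h7 : (pos s (D g)).2 = g * (2 * hgt s + 1) - hgt s := rfl
  have h8 : y = g * (2 * hgt s + 1) - hgt s - (j : ℝ) * (j + 1) := rfl
  rw [h7, h8] at h3
  rw [h8] at h6
  nlinarith [mul_nonneg (by linarith : (0 : ℝ) ≤ j) hs0]

theorem vertex_in_strip {m g : ℕ} {v : Vx} (hv : InR s m v)
    (h1 : g * wid s + 1 < xn s v) (h2 : xn s v < (g + 1) * wid s) :
    (∃ i ≤ s, v = U g i) ∨ ∃ j ≤ s, v = L g j := by
  have hw : wid s = 2 * s + 4 := rfl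
  have key : ∀ g' r, r < wid s → g * wid s + 1 < g' * wid s + r →
      g' * wid s + r < (g + 1) * wid s → g' = g := by
    intro g' r hr h3 h4
    have h5 : ¬ g' < g := by
      intro h
      have : (g' + 1) * wid s ≤ g * wid s := Nat.mul_le_mul_right _ h
      rw [Nat.add_mul, one_mul] at this
      omega
    have h6 : ¬ g < g' := by
      intro h
      have : (g + 1) * wid s ≤ g' * wid s := Nat.mul_le_mul_right _ h
      omega
    omega
  cases v with
  | C g' =>
    simp only [xn] at h1 h2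
    have := key g' 0 wid_pos (by omega) (by omega)
    subst this
    omega
  | D g' =>
    simp only [xn] at h1 h2
    have := key g' 1 (by omega) h1 h2
    subst this
    omega
  | U g' i =>
    have hi : i ≤ s := hv.2
    simp only [xn] at h1 h2
    have := key g' (2 + i) (by omega) h1 h2
    subst this
    exact Or.inl ⟨i, hi, rfl⟩
  | L g' j =>
    have hj : j ≤ s := hv.2
    simp only [xn] at h1 h2
    have := key g' (s + 3 + j) (by omega) h1 h2
    subst this
    exact Or.inr ⟨j, hj, rfl⟩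

theorem det_U_U {g i i' : ℕ} :
    0 ≤ det (pos s (U g i)) (pos s (U g (i + 1))) (pos s (U g i')) := by
  have e : det (pos s (U g i)) (pos s (U g (i + 1))) (pos s (U g i')) =
      ((((i' : ℤ) - i) ^ 2 - ((i' : ℤ) - i) : ℤ) : ℝ) := by
    rw [det_U]
    simp only [pos, xn, yv]
    push_cast
    ring
  rw [e]
  have h := Int.le_self_sq ((i' : ℤ) - i)
  exact_mod_cast (by linarith : (0 : ℤ) ≤ ((i' : ℤ) - i) ^ 2 - ((i' : ℤ) - i))

/-- The apex of an upper edge moves by at most one step to the left. -/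
theorem apex {m g i j : ℕ} (hm : 0 < m) (hg : g < m) (hi : i < s) (hj1 : 1 ≤ j) (hj : j ≤ s)
    {b : Pt} (hb : (∃ v, InR s m v ∧ pos s v = b) ∨ b.1 < ((g * wid s : ℕ) : ℝ) ∨
      (((g + 1) * wid s : ℕ) : ℝ) ≤ b.1)
    (hdet : det (pos s (U g i)) (pos s (U g (i + 1))) b ≠ 0)
    (hhull : hull {pos s (U g i), pos s (U g (i + 1)), b} ⊆ Poly s m)
    (hseg : segment ℝ (pos s (L g j)) b ⊆ Poly s m) :
    ∃ j' ≤ s, b = pos s (L g j') ∧ j ≤ j' + 1 := by
  set u := pos s (U g i) with hu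
  set w := pos s (U g (i + 1)) with hw
  have huw : w.1 = u.1 + 1 := by
    rw [hu, hw]
    simp only [pos, xn]
    push_cast
    ring
  have hconv : Convex ℝ (hull {u, w, b}) := convex_convexHull ℝ _
  have mu : u ∈ hull {u, w, b} := subset_convexHull ℝ _ (by simp)
  have mw : w ∈ hull {u, w, b} := subset_convexHull ℝ _ (by simp)
  have mb : b ∈ hull {u, w, b} := subset_convexHull ℝ _ (by simp)
  -- `b` is below the line
  have h1 : det u w b ≤ 0 := by
    set c : Pt := ((u.1 + w.1) / 2, (u.2 + w.2) / 2) with hc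
    have mc : c ∈ hull {u, w, b} := by
      refine hconv.segment_subset mu mw ⟨1 / 2, 1 / 2, by norm_num, by norm_num, by norm_num, ?_⟩
      refine Prod.ext ?_ ?_ <;>
        simp only [hc, Prod.fst_add, Prod.smul_fst, smul_eq_mul, Prod.snd_add, Prod.smul_snd] <;>
        ring
    refine below_of_segment hm hg hi (z := c) ?_ ?_ ?_ ((hconv.segment_subset mc mb).trans hhull)
    · change u.1 < (u.1 + w.1) / 2
      linarith
    · change (u.1 + w.1) / 2 < w.1
      linarith
    · simp only [det, hc, ← hu, ← hw]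
      ring
  have h1' : det u w b < 0 := lt_of_le_of_ne h1 hdet
  -- `b` is in the strip
  have h2 := right_bound hg hi h1 ((hconv.segment_subset mu mb).trans hhull)
  have h3 := left_bound hm hg hj1 hj hseg
  have h4 : ∃ v, InR s m v ∧ pos s v = b := by
    rcases hb with h | h | h
    · exact h
    · exfalso
      have : ((g * wid s : ℕ) : ℝ) ≤ ((g * wid s + 1 : ℕ) : ℝ) := by
        exact_mod_cast (by omega : g * wid s ≤ g * wid s + 1)
      linarith
    · exfalso
      linarith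
  obtain ⟨v, hv, rfl⟩ := h4
  have h5 : g * wid s + 1 < xn s v := by
    have : ((g * wid s + 1 : ℕ) : ℝ) < (xn s v : ℝ) := h3
    exact_mod_cast this
  have h6 : xn s v < (g + 1) * wid s := by
    have : (xn s v : ℝ) < (((g + 1) * wid s : ℕ) : ℝ) := h2
    exact_mod_cast this
  rcases vertex_in_strip hv h5 h6 with ⟨i', hi', rfl⟩ | ⟨j', hj', rfl⟩
  · exact absurd h1' (not_lt.2 det_U_U)
  · refine ⟨j', hj', rfl, ?_⟩
    by_contra hcon
    push Not at hcon
    obtain ⟨d, hd⟩ : ∃ d, j = j' + 1 + (d + 1) := ⟨j - j' - 2, by omega⟩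
    have h7 := left_slope hg hj1 hj hseg (by
      simp only [pos, xn, hd]
      push_cast
      have : (0 : ℝ) ≤ d := Nat.cast_nonneg d
      linarith)
    simp only [pos, xn, yv, hd] at h7
    push_cast at h7
    have h8 : (0 : ℝ) ≤ d := Nat.cast_nonneg d
    have h9 : (0 : ℝ) ≤ j' := Nat.cast_nonneg j'
    nlinarith

end Local

end Pool.Agent.Q107.Flip
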