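import Pool.Agent.Q107.Flip.Plane

/-!
# Piecewise linear functions given by lists of points
-/

set_option autoImplicit false

namespace Pool.Agent.Q107.Flip

/-- the linear function through two points -/
noncomputable def lin (a b : Pt) (x : ℝ) : ℝ := a.2 + (b.2 - a.2) / (b.1 - a.1) * (x - a.1)

theorem lin_left (a b : Pt) : lin a b a.1 = a.2 := by simp [lin]

theorem lin_right {a b : Pt} (h : a.1 < b.1) : lin a b b.1 = b.2 := by
  have : b.1 - a.1 ≠ 0 := by linarith
  simp [lin, this]

theorem det_eq_lin {a b : Pt} (h : a.1 < b.1) (z : Pt) :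
    det a b z = (b.1 - a.1) * (z.2 - lin a b z.1) := by
  have : b.1 - a.1 ≠ 0 := by linarith
  simp only [det, lin]
  field_simp
  ring

theorem det_nonneg_iff {a b : Pt} (h : a.1 < b.1) (z : Pt) :
    0 ≤ det a b z ↔ lin a b z.1 ≤ z.2 := by
  rw [det_eq_lin h, mul_nonneg_iff_of_pos_left (by linarith)]
  constructor <;> intro <;> linarith

theorem det_pos_iff {a b : Pt} (h : a.1 < b.1) (z : Pt) :
    0 < det a b z ↔ lin a b z.1 < z.2 := by
  rw [det_eq_lin h, mul_pos_iff_of_pos_left (by linarith)]
  constructor <;> intro <;> linarith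

theorem det_nonpos_iff {a b : Pt} (h : a.1 < b.1) (z : Pt) :
    det a b z ≤ 0 ↔ z.2 ≤ lin a b z.1 := by
  rw [← not_lt, det_pos_iff h, not_lt]

theorem det_neg_iff {a b : Pt} (h : a.1 < b.1) (z : Pt) :
    det a b z < 0 ↔ z.2 < lin a b z.1 := by
  rw [← not_le, det_nonneg_iff h, not_le]

theorem continuous_lin (a b : Pt) : Continuous (lin a b) := by
  unfold lin
  fun_prop

/-- the piecewise linear function through the points of a list -/
noncomputable def pl : List Pt → ℝ → ℝ
  | [], _ => 0
  | [a], _ => a.2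
  | a :: b :: l, x => if x ≤ b.1 then lin a b x else pl (b :: l) x

/-- the list is strictly sorted by the first coordinate -/
def XSorted (l : List Pt) : Prop := l.Pairwise fun a b => a.1 < b.1

theorem pl_cons_cons (a b : Pt) (l : List Pt) (x : ℝ) :
    pl (a :: b :: l) x = if x ≤ b.1 then lin a b x else pl (b :: l) x := rfl

theorem pl_head {a : Pt} {l : List Pt} (h : XSorted (a :: l)) : pl (a :: l) a.1 = a.2 := by
  cases l with
  | nil => rfl
  | cons b l =>
    have hab : a.1 < b.1 := List.rel_of_pairwise_cons h (by simp)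
    rw [pl_cons_cons, if_pos hab.le, lin_left]

theorem pl_append_ge {L : List Pt} {a : Pt} {Y : List Pt} (h : XSorted (L ++ a :: Y)) {x : ℝ}
    (hx : a.1 ≤ x) : pl (L ++ a :: Y) x = pl (a :: Y) x := by
  induction L with
  | nil => rfl
  | cons d L ih =>
    have h' : XSorted (L ++ a :: Y) := List.Pairwise.of_cons h
    rw [← ih h']
    cases L with
    | nil =>
      have hda : d.1 < a.1 := List.rel_of_pairwise_cons h (by simp)
      simp only [List.cons_append, List.nil_append]
      rw [pl_cons_cons]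
      split_ifs with hxa
      · have : x = a.1 := le_antisymm hxa hx
        subst this
        rw [lin_right hda, pl_head h']
      · rfl
    | cons e L =>
      have hea : e.1 < a.1 := List.rel_of_pairwise_cons h' (by simp)
      simp only [List.cons_append]
      rw [pl_cons_cons, if_neg (by linarith)]

theorem pl_append_le {L : List Pt} (hL : L ≠ []) {a : Pt} (Y : List Pt) {x : ℝ} (hx : x ≤ a.1) :
    pl (L ++ a :: Y) x = pl (L ++ [a]) x := by
  induction L with
  | nil => exact absurd rfl hL
  | cons d L ih =>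
    cases L with
    | nil =>
      simp only [List.cons_append, List.nil_append]
      rw [pl_cons_cons, pl_cons_cons, if_pos hx, if_pos hx]
    | cons e L =>
      simp only [List.cons_append] at ih ⊢
      rw [pl_cons_cons, pl_cons_cons, ih (by simp)]

/-- on the edge between two consecutive points -/
theorem pl_mid {L : List Pt} {a b : Pt} {R : List Pt} (h : XSorted (L ++ a :: b :: R)) {x : ℝ}
    (h1 : a.1 ≤ x) (h2 : x ≤ b.1) : pl (L ++ a :: b :: R) x = lin a b x := by
  rw [pl_append_ge h h1, pl_cons_cons, if_pos h2]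

theorem pl_mem {L : List Pt} {a : Pt} {R : List Pt} (h : XSorted (L ++ a :: R)) :
    pl (L ++ a :: R) a.1 = a.2 := by
  rw [pl_append_ge h le_rfl]
  exact pl_head (List.pairwise_append.1 h).2.1

theorem continuous_pl {l : List Pt} (h : XSorted l) : Continuous (pl l) := by
  induction l with
  | nil => exact continuous_const
  | cons a l ih =>
    cases l with
    | nil => exact continuous_const
    | cons b l =>
      have hab : a.1 < b.1 := List.rel_of_pairwise_cons h (by simp)
      have h' : XSorted (b :: l) := List.Pairwise.of_cons h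
      have : pl (a :: b :: l) = fun x => if x ≤ b.1 then lin a b x else pl (b :: l) x := by
        funext x
        rfl
      rw [this]
      refine Continuous.if_le (continuous_lin a b) (ih h') continuous_id continuous_const ?_
      intro x hx
      subst hx
      rw [lin_right hab, pl_head h']

/-- `F ≤ G` and the triangles fill the region between the graphs. -/
structure Layer (A B : ℝ) (F G : ℝ → ℝ) (T : Finset (Finset Pt)) : Prop where
  le : ∀ x, A ≤ x → x ≤ B → F x ≤ G x
  sub : ∀ t ∈ T, ∀ z ∈ hull t, A ≤ z.1 ∧ z.1 ≤ B ∧ F z.1 ≤ z.2 ∧ z.2 ≤ G z.1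
  cover : ∀ z : Pt, A ≤ z.1 → z.1 ≤ B → F z.1 ≤ z.2 → z.2 ≤ G z.1 → F z.1 < G z.1 →
    ∃ t ∈ T, z ∈ hull t
  strict : ∀ t ∈ T, ∀ p ∈ t, ∀ q ∈ t, ∀ x, p.1 < x → x < q.1 → F x < G x
  disj : ∀ t ∈ T, ∀ t' ∈ T, t ≠ t' → Disjoint (interior (hull t)) (interior (hull t'))
  form : ∀ t ∈ T, ∃ a b c, t = {a, b, c} ∧ det a b c ≠ 0

theorem Layer.interior {A B : ℝ} {F G : ℝ → ℝ} {T : Finset (Finset Pt)} (h : Layer A B F G T)
    {t : Finset Pt} (ht : t ∈ T) {z : Pt} (hz : z ∈ interior (hull t)) :
    F z.1 < z.2 ∧ z.2 < G z.1 := by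
  obtain ⟨ε, hε, h1, h2⟩ := exists_vertical hz
  have h3 := h.sub t ht _ h1
  have h4 := h.sub t ht _ h2
  simp only at h3 h4
  constructor <;> linarith [h3.2.2.2, h4.2.2.1]

theorem Layer.refl (A B : ℝ) (F : ℝ → ℝ) : Layer A B F F ∅ where
  le _ _ _ := le_rfl
  sub t ht := absurd ht (Finset.notMem_empty _)
  cover _ _ _ _ _ h := absurd h (lt_irrefl _)
  strict t ht := absurd ht (Finset.notMem_empty _)
  disj t ht := absurd ht (Finset.notMem_empty _)
  form t ht := absurd ht (Finset.notMem_empty _)

theorem Layer.trans {A B : ℝ} {F G H : ℝ → ℝ} {T T' : Finset (Finset Pt)} (h : Layer A B F G T)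
    (h' : Layer A B G H T') : Layer A B F H (T' ∪ T) where
  le x h1 h2 := (h.le x h1 h2).trans (h'.le x h1 h2)
  sub t ht z hz := by
    rcases Finset.mem_union.1 ht with ht | ht
    · obtain ⟨h1, h2, h3, h4⟩ := h'.sub t ht z hz
      exact ⟨h1, h2, (h.le _ h1 h2).trans h3, h4⟩
    · obtain ⟨h1, h2, h3, h4⟩ := h.sub t ht z hz
      exact ⟨h1, h2, h3, h4.trans (h'.le _ h1 h2)⟩
  cover z h1 h2 h3 h4 h5 := by
    rcases le_or_gt z.2 (G z.1) with h6 | h6
    · rcases lt_or_ge (F z.1) (G z.1) with h7 | h7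
      · obtain ⟨t, ht, hz⟩ := h.cover z h1 h2 h3 h6 h7
        exact ⟨t, Finset.mem_union_right _ ht, hz⟩
      · have h8 : G z.1 ≤ z.2 := h7.trans h3
        obtain ⟨t, ht, hz⟩ := h'.cover z h1 h2 h8 h4 (lt_of_le_of_lt h7 h5)
        exact ⟨t, Finset.mem_union_left _ ht, hz⟩
    · obtain ⟨t, ht, hz⟩ := h'.cover z h1 h2 h6.le h4 (lt_of_lt_of_le h6 h4)
      exact ⟨t, Finset.mem_union_left _ ht, hz⟩
  strict t ht p hp q hq x h1 h2 := by
    have hA : A ≤ p.1 ∧ q.1 ≤ B := by
      have e1 : p ∈ hull t := subset_convexHull ℝ _ (by simpa using hp)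
      have e2 : q ∈ hull t := subset_convexHull ℝ _ (by simpa using hq)
      rcases Finset.mem_union.1 ht with ht | ht
      · exact ⟨(h'.sub t ht p e1).1, (h'.sub t ht q e2).2.1⟩
      · exact ⟨(h.sub t ht p e1).1, (h.sub t ht q e2).2.1⟩
    rcases Finset.mem_union.1 ht with ht | ht
    · exact lt_of_le_of_lt (h.le x (by linarith) (by linarith)) (h'.strict t ht p hp q hq x h1 h2)
    · exact lt_of_lt_of_le (h.strict t ht p hp q hq x h1 h2) (h'.le x (by linarith) (by linarith))
  disj t ht t' ht' hne := by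
    rcases Finset.mem_union.1 ht with ht | ht <;> rcases Finset.mem_union.1 ht' with ht' | ht'
    · exact h'.disj t ht t' ht' hne
    · rw [Set.disjoint_left]
      intro z hz hz'
      have e1 := h'.interior ht hz
      have e2 := h.interior ht' hz'
      linarith [e1.1, e2.2]
    · rw [Set.disjoint_left]
      intro z hz hz'
      have e1 := h.interior ht hz
      have e2 := h'.interior ht' hz'
      linarith [e1.2, e2.1]
    · exact h.disj t ht t' ht' hne
  form t ht := by
    rcases Finset.mem_union.1 ht with ht | ht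
    · exact h'.form t ht
    · exact h.form t ht

/-- The region of a triangle with the middle vertex above. -/
theorem mem_hull_above {a b c : Pt} (hab : a.1 < b.1) (hbc : b.1 < c.1) (h : 0 < det a c b)
    (z : Pt) : z ∈ hull {a, b, c} ↔
      lin a c z.1 ≤ z.2 ∧ z.2 ≤ lin a b z.1 ∧ z.2 ≤ lin b c z.1 := by
  have h2 : ({a, b, c} : Finset Pt) = {a, c, b} := by
    ext x
    simp only [Finset.mem_insert, Finset.mem_singleton]
    tauto
  rw [h2, mem_hull_iff h, det_swap b c z, det_swap a b z, det_nonneg_iff (hab.trans hbc),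
    neg_nonneg, neg_nonneg, det_nonpos_iff hab, det_nonpos_iff hbc]
  tauto

/-- The region of a triangle with the middle vertex below. -/
theorem mem_hull_below {a b c : Pt} (hab : a.1 < b.1) (hbc : b.1 < c.1) (h : det a c b < 0)
    (z : Pt) : z ∈ hull {a, b, c} ↔
      z.2 ≤ lin a c z.1 ∧ lin a b z.1 ≤ z.2 ∧ lin b c z.1 ≤ z.2 := by
  have h2 : 0 < det a b c := by
    rw [det_swap']
    linarith
  rw [mem_hull_iff h2, det_swap a c z, det_nonneg_iff hab, det_nonneg_iff hbc, neg_nonneg,
    det_nonpos_iff (hab.trans hbc)]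
  tauto

/-- comparison of the three lines of a triangle with the middle vertex above -/
theorem lin_above {a b c : Pt} (hab : a.1 < b.1) (hbc : b.1 < c.1) (h : 0 < det a c b) (x : ℝ) :
    (lin a b x - lin a c x = (b.2 - lin a c b.1) / (b.1 - a.1) * (x - a.1)) ∧
    (lin b c x - lin a c x = (b.2 - lin a c b.1) / (c.1 - b.1) * (c.1 - x)) := by
  have h1 : b.1 - a.1 ≠ 0 := by linarith
  have h2 : c.1 - b.1 ≠ 0 := by linarith
  have h3 : c.1 - a.1 ≠ 0 := by linarith
  constructor
  · simp only [lin]
    field_simp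
    ring
  · simp only [lin]
    field_simp
    ring

end Pool.Agent.Q107.Flip
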