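import Pool.Agent.Q107.Flip.Defs

/-!
# Triangles in the plane
-/

set_option autoImplicit false

namespace Pool.Agent.Q107.Flip

/-- orientation determinant -/
def det (a b c : Pt) : ℝ := (b.1 - a.1) * (c.2 - a.2) - (b.2 - a.2) * (c.1 - a.1)

theorem mem_hull3 {a b c z : Pt} :
    z ∈ convexHull ℝ ({a, b, c} : Set Pt) ↔
      ∃ α β γ : ℝ, 0 ≤ α ∧ 0 ≤ β ∧ 0 ≤ γ ∧ α + β + γ = 1 ∧
        z.1 = α * a.1 + β * b.1 + γ * c.1 ∧ z.2 = α * a.2 + β * b.2 + γ * c.2 := by
  rw [convexHull_insert ⟨b, by simp⟩, convexHull_pair, mem_convexJoin]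
  constructor
  · rintro ⟨x, hx, y, hy, hz⟩
    rw [Set.mem_singleton_iff] at hx
    subst hx
    obtain ⟨p, q, hp, hq, hpq, rfl⟩ := hy
    obtain ⟨r, s, hr, hs, hrs, rfl⟩ := hz
    refine ⟨r, s * p, s * q, hr, by positivity, by positivity, ?_, ?_, ?_⟩
    · have : s * p + s * q = s := by rw [← mul_add, hpq, mul_one]
      linarith
    · simp only [Prod.fst_add, Prod.smul_fst, smul_eq_mul]
      ring
    · simp only [Prod.snd_add, Prod.smul_snd, smul_eq_mul]
      ring
  · rintro ⟨α, β, γ, hα, hβ, hγ, hsum, h1, h2⟩
    rcases eq_or_lt_of_le (show 0 ≤ β + γ by positivity) with h0 | h0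
    · have hβ0 : β = 0 := by linarith
      have hγ0 : γ = 0 := by linarith
      have hα1 : α = 1 := by linarith
      subst hβ0 hγ0 hα1
      refine ⟨a, rfl, b, left_mem_segment _ _ _, ?_⟩
      have : z = a := Prod.ext (by simpa using h1) (by simpa using h2)
      rw [this]
      exact left_mem_segment _ _ _
    · refine ⟨a, rfl, (β / (β + γ)) • b + (γ / (β + γ)) • c, ⟨_, _, by positivity, by positivity, ?_,
        rfl⟩, ⟨α, β + γ, hα, by positivity, by linarith, ?_⟩⟩
      · field_simp
      · refine Prod.ext ?_ ?_
        · simp only [Prod.fst_add, Prod.smul_fst, smul_eq_mul]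
          rw [h1]
          field_simp
          ring
        · simp only [Prod.snd_add, Prod.smul_snd, smul_eq_mul]
          rw [h2]
          field_simp
          ring

theorem hull_triple (a b c : Pt) : hull {a, b, c} = convexHull ℝ ({a, b, c} : Set Pt) := by
  simp [hull]

/-- Membership in a positively oriented triangle. -/
theorem mem_hull_iff {a b c z : Pt} (h : 0 < det a b c) :
    z ∈ hull {a, b, c} ↔ 0 ≤ det a b z ∧ 0 ≤ det b c z ∧ 0 ≤ det c a z := by
  rw [hull_triple, mem_hull3]
  constructor
  · rintro ⟨α, β, γ, hα, hβ, hγ, hsum, h1, h2⟩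
    have hα1 : α = 1 - β - γ := by linarith
    have e1 : det a b z = γ * det a b c := by
      simp only [det, h1, h2, hα1]
      ring
    have e2 : det b c z = α * det a b c := by
      simp only [det, h1, h2]
      rw [show β = 1 - α - γ by linarith]
      ring
    have e3 : det c a z = β * det a b c := by
      simp only [det, h1, h2]
      rw [show γ = 1 - α - β by linarith]
      ring
    rw [e1, e2, e3]
    exact ⟨by positivity, by positivity, by positivity⟩
  · rintro ⟨h1, h2, h3⟩
    refine ⟨det b c z / det a b c, det c a z / det a b c, det a b z / det a b c, by positivity,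
      by positivity, by positivity, ?_, ?_, ?_⟩
    · field_simp
      simp only [det]
      ring
    · field_simp
      simp only [det]
      ring
    · field_simp
      simp only [det]
      ring

theorem det_rot (a b c : Pt) : det b c a = det a b c := by simp only [det]; ring

theorem det_swap (a b c : Pt) : det b a c = - det a b c := by simp only [det]; ring

theorem det_swap' (a b c : Pt) : det a c b = - det a b c := by simp only [det]; ring

theorem continuous_det (a b : Pt) : Continuous fun z : Pt => det a b z := by
  unfold det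
  fun_prop

/-- A small vertical perturbation of an interior point stays inside. -/
theorem exists_vertical {A : Set Pt} {z : Pt} (hz : z ∈ interior A) :
    ∃ ε > 0, (z.1, z.2 + ε) ∈ A ∧ (z.1, z.2 - ε) ∈ A := by
  have h := mem_interior_iff_mem_nhds.1 hz
  have h1 : Filter.Tendsto (fun ε : ℝ => ((z.1, z.2 + ε) : Pt)) (nhds 0) (nhds z) := by
    have : Continuous fun ε : ℝ => ((z.1, z.2 + ε) : Pt) := by fun_prop
    simpa using this.tendsto 0
  have h2 : Filter.Tendsto (fun ε : ℝ => ((z.1, z.2 - ε) : Pt)) (nhds 0) (nhds z) := by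
    have : Continuous fun ε : ℝ => ((z.1, z.2 - ε) : Pt) := by fun_prop
    simpa using this.tendsto 0
  have h3 := (h1.eventually h).and (h2.eventually h)
  obtain ⟨δ, hδ, hball⟩ := Metric.eventually_nhds_iff.1 h3
  refine ⟨δ / 2, by positivity, ?_⟩
  apply hball
  rw [Real.dist_eq, sub_zero, abs_of_pos (by positivity)]
  linarith

/-- A small perturbation in a direction `w` of an interior point stays inside. -/
theorem exists_direction {A : Set Pt} {z : Pt} (hz : z ∈ interior A) (w : Pt) :
    ∃ ε > 0, (z.1 + ε * w.1, z.2 + ε * w.2) ∈ A := by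
  have h := mem_interior_iff_mem_nhds.1 hz
  have h1 : Filter.Tendsto (fun ε : ℝ => ((z.1 + ε * w.1, z.2 + ε * w.2) : Pt)) (nhds 0)
      (nhds z) := by
    have : Continuous fun ε : ℝ => ((z.1 + ε * w.1, z.2 + ε * w.2) : Pt) := by fun_prop
    simpa using this.tendsto 0
  obtain ⟨δ, hδ, hball⟩ := Metric.eventually_nhds_iff.1 (h1.eventually h)
  refine ⟨δ / 2, by positivity, ?_⟩
  apply hball
  rw [Real.dist_eq, sub_zero, abs_of_pos (by positivity)]
  linarith

theorem interior_hull_nonempty {a b c : Pt} (h : 0 < det a b c) :
    (interior (hull {a, b, c})).Nonempty := by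
  let g : Pt := ((a.1 + b.1 + c.1) / 3, (a.2 + b.2 + c.2) / 3)
  have e1 : det a b g = det a b c / 3 := by simp only [g, det]; ring
  have e2 : det b c g = det a b c / 3 := by simp only [g, det]; ring
  have e3 : det c a g = det a b c / 3 := by simp only [g, det]; ring
  refine ⟨g, mem_interior.2 ⟨{z | 0 < det a b z} ∩ {z | 0 < det b c z} ∩ {z | 0 < det c a z},
    ?_, ?_, ?_⟩⟩
  · rintro z ⟨⟨h1, h2⟩, h3⟩
    exact (mem_hull_iff h).2 ⟨le_of_lt h1, le_of_lt h2, le_of_lt h3⟩
  · exact ((isOpen_lt continuous_const (continuous_det a b)).inter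
      (isOpen_lt continuous_const (continuous_det b c))).inter
      (isOpen_lt continuous_const (continuous_det c a))
  · refine ⟨⟨?_, ?_⟩, ?_⟩
    · change 0 < det a b g
      rw [e1]
      positivity
    · change 0 < det b c g
      rw [e2]
      positivity
    · change 0 < det c a g
      rw [e3]
      positivity

theorem interior_hull_nonempty' {a b c : Pt} (h : det a b c ≠ 0) :
    (interior (hull {a, b, c})).Nonempty := by
  rcases lt_or_gt_of_ne h with h | h
  · have h1 : 0 < det a c b := by
      rw [det_swap']
      linarith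
    have h2 : ({a, b, c} : Finset Pt) = {a, c, b} := by
      ext x
      simp only [Finset.mem_insert, Finset.mem_singleton]
      tauto
    rw [h2]
    exact interior_hull_nonempty h1
  · exact interior_hull_nonempty h

/-- The barycentric coordinates of an interior point do not vanish. -/
theorem det_ne_zero_of_interior {a b c z : Pt} (h : det a b c ≠ 0)
    (hz : z ∈ interior (hull {a, b, c})) : det a b z ≠ 0 := by
  rcases lt_or_gt_of_ne h with h | h
  · have h1 : 0 < det b a c := by
      rw [det_swap]
      linarith
    have h2 : ({a, b, c} : Finset Pt) = {b, a, c} := by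
      ext x
      simp only [Finset.mem_insert, Finset.mem_singleton]
      tauto
    rw [h2] at hz
    obtain ⟨ε, hε, hmem⟩ := exists_direction hz (a.1 - c.1, a.2 - c.2)
    have h3 := ((mem_hull_iff h1).1 hmem).1
    have h4 : det b a (z.1 + ε * (a.1 - c.1), z.2 + ε * (a.2 - c.2)) =
        - det a b z - ε * det b a c := by
      simp only [det]
      ring
    simp only at h3
    rw [h4] at h3
    have : 0 < ε * det b a c := by positivity
    intro h0
    rw [h0] at h3
    linarith
  · obtain ⟨ε, hε, hmem⟩ := exists_direction hz (a.1 - c.1, a.2 - c.2)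
    have h3 := ((mem_hull_iff h).1 hmem).1
    have h4 : det a b (z.1 + ε * (a.1 - c.1), z.2 + ε * (a.2 - c.2)) =
        det a b z - ε * det a b c := by
      simp only [det]
      ring
    simp only at h3
    rw [h4] at h3
    have : 0 < ε * det a b c := by positivity
    intro h0
    rw [h0] at h3
    linarith

end Pool.Agent.Q107.Flip
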