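import Pool.Agent.Q107.Flip.Chain

/-!
# The chain of gadgets is a simple polygon with two triangulations
-/

set_option autoImplicit false

namespace Pool.Agent.Q107.Flip

open Vx

section Poly

variable {s : ℕ}

/-- the vertices of the chain of `m` gadgets -/
def InR (s m : ℕ) : Vx → Prop
  | C g => g ≤ m
  | D g => g ≤ m
  | U g i => g < m ∧ i ≤ s
  | L g j => g < m ∧ j ≤ s

theorem InR.valid {m : ℕ} {v : Vx} (h : InR s m v) : Valid s v := by
  cases v with
  | C g => trivial
  | D g => trivial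
  | U g i => exact h.2
  | L g j => exact h.2

theorem Ls_zero (g j : ℕ) : Ls s g j 0 = [] := rfl

theorem mem_Ls {g j k : ℕ} {z : Pt} : z ∈ Ls s g j k ↔ ∃ i, j ≤ i ∧ i < j + k ∧ pos s (L g i) = z := by
  simp [Ls, List.mem_range'_1, and_assoc]

theorem mem_Us {g k : ℕ} {z : Pt} : z ∈ Us s g k ↔ ∃ i < k, pos s (U g i) = z := by
  simp [Us]

theorem mem_lowI {m : ℕ} {z : Pt} : z ∈ lowI s m ↔
    (∃ g < m, pos s (C g) = z) ∨ ∃ g < m, ∃ j ≤ s, pos s (L g j) = z := by
  induction m with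
  | zero => simp [lowI]
  | succ m ih =>
    rw [lowI, List.mem_append, List.mem_cons, ih, mem_Ls]
    constructor
    · rintro ((⟨g, hg, h⟩ | ⟨g, hg, j, hj, h⟩) | h | ⟨i, -, hi, h⟩)
      · exact Or.inl ⟨g, by omega, h⟩
      · exact Or.inr ⟨g, by omega, j, hj, h⟩
      · exact Or.inl ⟨m, by omega, h.symm⟩
      · exact Or.inr ⟨m, by omega, i, by omega, h⟩
    · rintro (⟨g, hg, h⟩ | ⟨g, hg, j, hj, h⟩)
      · rcases Nat.lt_succ_iff_lt_or_eq.1 hg with hg | rfl
        · exact Or.inl (Or.inl ⟨g, hg, h⟩)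
        · exact Or.inr (Or.inl h.symm)
      · rcases Nat.lt_succ_iff_lt_or_eq.1 hg with hg | rfl
        · exact Or.inl (Or.inr ⟨g, hg, j, hj, h⟩)
        · exact Or.inr (Or.inr ⟨j, by omega, by omega, h⟩)

theorem mem_uppI {m : ℕ} {z : Pt} : z ∈ uppI s m ↔
    (∃ g < m, pos s (D g) = z) ∨ ∃ g < m, ∃ j ≤ s, pos s (U g j) = z := by
  induction m with
  | zero => simp [uppI]
  | succ m ih =>
    rw [uppI, List.mem_append, List.mem_cons, ih, mem_Us]
    constructor
    · rintro ((⟨g, hg, h⟩ | ⟨g, hg, j, hj, h⟩) | h | ⟨i, hi, h⟩)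
      · exact Or.inl ⟨g, by omega, h⟩
      · exact Or.inr ⟨g, by omega, j, hj, h⟩
      · exact Or.inl ⟨m, by omega, h.symm⟩
      · exact Or.inr ⟨m, by omega, i, by omega, h⟩
    · rintro (⟨g, hg, h⟩ | ⟨g, hg, j, hj, h⟩)
      · rcases Nat.lt_succ_iff_lt_or_eq.1 hg with hg | rfl
        · exact Or.inl (Or.inl ⟨g, hg, h⟩)
        · exact Or.inr (Or.inl h.symm)
      · rcases Nat.lt_succ_iff_lt_or_eq.1 hg with hg | rfl
        · exact Or.inl (Or.inr ⟨g, hg, j, hj, h⟩)
        · exact Or.inr (Or.inr ⟨j, by omega, h⟩)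

theorem wid_pos : 0 < wid s := by unfold wid; omega

/-- the first coordinates of the lower path of the first `m` gadgets -/
theorem xn_le_of_mem_lowI {m : ℕ} {z : Pt} (h : z ∈ lowI s m) : z.1 < ((m * wid s : ℕ) : ℝ) := by
  have key : ∀ g r : ℕ, g < m → r < wid s → ((g * wid s + r : ℕ) : ℝ) < ((m * wid s : ℕ) : ℝ) := by
    intro g r hg hr
    have h1 : (g + 1) * wid s ≤ m * wid s := Nat.mul_le_mul_right _ hg
    rw [Nat.add_mul, one_mul] at h1
    exact_mod_cast (by omega : g * wid s + r < m * wid s)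
  rcases mem_lowI.1 h with ⟨g, hg, rfl⟩ | ⟨g, hg, j, hj, rfl⟩
  · exact key g 0 hg wid_pos
  · exact key g (s + 3 + j) hg (by unfold wid; omega)

theorem Ls_sorted (g j k : ℕ) : XSorted (Ls s g j k) := by
  unfold XSorted Ls
  rw [List.pairwise_map]
  have := List.pairwise_lt_range' (s := j) (n := k)
  refine List.Pairwise.imp ?_ this
  intro a b hab
  exact x_lt (by simp only [xn]; omega)

theorem lowI_sorted (m : ℕ) : XSorted (lowI s m) := by
  induction m with
  | zero => exact List.Pairwise.nil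
  | succ m ih =>
    unfold XSorted at *
    rw [lowI, List.pairwise_append]
    refine ⟨ih, ?_, ?_⟩
    · rw [List.pairwise_cons]
      refine ⟨?_, Ls_sorted _ _ _⟩
      intro z hz
      obtain ⟨i, -, -, rfl⟩ := mem_Ls.1 hz
      exact x_lt (by simp only [xn]; omega)
    · intro z hz w hw
      have h1 := xn_le_of_mem_lowI hz
      rcases List.mem_cons.1 hw with rfl | hw
      · exact h1
      · obtain ⟨i, -, -, rfl⟩ := mem_Ls.1 hw
        refine h1.trans ?_
        simp only [pos, xn]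
        exact_mod_cast (by omega : m * wid s < m * wid s + (s + 3 + i))

theorem low_sorted (m : ℕ) : XSorted (low s m) := by
  unfold XSorted low
  rw [List.pairwise_append]
  refine ⟨lowI_sorted m, ?_, ?_⟩
  · rw [List.pairwise_cons]
    refine ⟨?_, List.pairwise_singleton _ _⟩
    intro z hz
    rw [List.mem_singleton] at hz
    subst hz
    exact x_lt (by simp only [xn]; omega)
  · intro z hz w hw
    have h1 := xn_le_of_mem_lowI hz
    rcases List.mem_cons.1 hw with rfl | hw
    · exact h1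
    · rw [List.mem_singleton] at hw
      subst hw
      refine h1.trans ?_
      simp only [pos, xn]
      exact_mod_cast (by omega : m * wid s < m * wid s + 1)

theorem lowI_cons {m : ℕ} (hm : 0 < m) : ∃ l, lowI s m = pos s (C 0) :: l := by
  induction m with
  | zero => omega
  | succ m ih =>
    rcases Nat.eq_zero_or_pos m with rfl | hm'
    · exact ⟨_, rfl⟩
    · obtain ⟨l, hl⟩ := ih hm'
      exact ⟨l ++ pos s (C m) :: Ls s m 0 (s + 1), by rw [lowI, hl]; rfl⟩

theorem low_form {m : ℕ} (hm : 0 < m) : ∃ Xi : List Pt, Xi ≠ [] ∧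
    low s m = pos s (C 0) :: (Xi ++ [pos s (D m)]) := by
  obtain ⟨l, hl⟩ := lowI_cons (s := s) hm
  refine ⟨l ++ [pos s (C m)], by simp, ?_⟩
  rw [low, hl]
  simp

theorem low_head {m : ℕ} (hm : 0 < m) : (low s m).head? = some (pos s (C 0)) := by
  obtain ⟨Xi, -, h⟩ := low_form (s := s) hm
  rw [h]
  rfl

theorem low_last (m : ℕ) : (low s m).getLast? = some (pos s (D m)) := by
  simp [low, List.getLast?_append]

/-- the cyclic list of the vertices of the polygon -/
noncomputable def poly (s m : ℕ) : List Pt := low s m ++ (uppI s m).reverse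

theorem mem_poly {m : ℕ} {z : Pt} : z ∈ poly s m ↔ ∃ v, InR s m v ∧ pos s v = z := by
  rw [poly, low, List.mem_append, List.mem_append, List.mem_reverse, mem_lowI, mem_uppI]
  simp only [List.mem_cons, List.not_mem_nil, or_false]
  constructor
  · rintro (((⟨g, hg, h⟩ | ⟨g, hg, j, hj, h⟩) | h | h) | ⟨g, hg, h⟩ | ⟨g, hg, j, hj, h⟩)
    · exact ⟨C g, hg.le, h⟩
    · exact ⟨L g j, ⟨hg, hj⟩, h⟩
    · exact ⟨C m, le_rfl, h.symm⟩
    · exact ⟨D m, le_rfl, h.symm⟩
    · exact ⟨D g, hg.le, h⟩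
    · exact ⟨U g j, ⟨hg, hj⟩, h⟩
  · rintro ⟨v, hv, rfl⟩
    cases v with
    | C g =>
      rcases Nat.lt_or_eq_of_le (show g ≤ m from hv) with hg | rfl
      · exact Or.inl (Or.inl (Or.inl ⟨g, hg, rfl⟩))
      · exact Or.inl (Or.inr (Or.inl rfl))
    | D g =>
      rcases Nat.lt_or_eq_of_le (show g ≤ m from hv) with hg | rfl
      · exact Or.inr (Or.inl ⟨g, hg, rfl⟩)
      · exact Or.inl (Or.inr (Or.inr rfl))
    | U g i => exact Or.inr (Or.inr ⟨g, hv.1, i, hv.2, rfl⟩)
    | L g j => exact Or.inl (Or.inl (Or.inr ⟨g, hv.1, j, hv.2, rfl⟩))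

theorem length_lowI (m : ℕ) : (lowI s m).length = m * (s + 2) := by
  induction m with
  | zero => simp [lowI]
  | succ m ih =>
    rw [lowI, List.length_append, ih]
    simp [Ls]
    ring

theorem length_uppI (m : ℕ) : (uppI s m).length = m * (s + 2) := by
  induction m with
  | zero => simp [uppI]
  | succ m ih =>
    rw [uppI, List.length_append, ih]
    simp [Us]
    ring

theorem length_poly (m : ℕ) : (poly s m).length = m * wid s + 2 := by
  rw [poly, low, List.length_append, List.length_append, List.length_reverse, length_lowI,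
    length_uppI, wid]
  simp
  ring

/-- the functions bounding the polygon -/
noncomputable def bot (s m : ℕ) : ℝ → ℝ := pl (low s m)

noncomputable def top (s m : ℕ) : ℝ → ℝ := pl (upp s m)

/-- the polygon -/
noncomputable def Poly (s m : ℕ) : Set Pt :=
  region (pos s (C 0)).1 (pos s (D m)).1 (bot s m) (top s m)

theorem chain_layer {M : ℕ → Finset (Finset Pt)}
    (hM : ∀ (g : ℕ) (P Q : List Pt),
      Sweep (P ++ pos s (D g) :: (Ls s g 0 (s + 1) ++ pos s (C (g + 1)) :: Q))
        (P ++ pos s (D g) :: (Us s g (s + 1) ++ pos s (C (g + 1)) :: Q)) (M g)) {m : ℕ}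
    (hm : 0 < m) :
    XSorted (upp s m) ∧
      Layer (pos s (C 0)).1 (pos s (D m)).1 (bot s m) (top s m) (chain s M m) := by
  have h := (sweep_chain hM m).layer (low_sorted m) (low_head hm) (low_last m)
  exact ⟨h.1.2.2, h.2⟩

theorem upp_sorted {m : ℕ} (hm : 0 < m) : XSorted (upp s m) := (chain_layer sweep_midF hm).1

theorem bot_lt_top {m : ℕ} (hm : 0 < m) (x : ℝ) (h1 : (pos s (C 0)).1 < x)
    (h2 : x < (pos s (D m)).1) : bot s m x < top s m x := by
  have hL := (chain_layer (s := s) sweep_midF hm).2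
  have t1 : ∀ g < m, ((g * wid s : ℕ) : ℝ) < x → x < ((g * wid s + (s + 3) : ℕ) : ℝ) →
      bot s m x < top s m x := by
    intro g hg h3 h4
    refine hL.strict (tri1 s g) (mem_chain.2 ⟨g, hg, Or.inl rfl⟩) (pos s (C g)) (by simp [tri1])
      (pos s (L g 0)) (by simp [tri1]) x ?_ ?_
    · simpa only [pos, xn] using h3
    · simpa only [pos, xn, add_zero] using h4
  have t3 : ∀ g < m, ((g * wid s + (s + 2) : ℕ) : ℝ) < x → x < (((g + 1) * wid s + 1 : ℕ) : ℝ) →
      bot s m x < top s m x := by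
    intro g hg h3 h4
    refine hL.strict (tri3 s g) (mem_chain.2 ⟨g, hg, Or.inr (Or.inl rfl)⟩) (pos s (U g s))
      (by simp [tri3]) (pos s (D (g + 1))) (by simp [tri3]) x ?_ ?_
    · simp only [pos, xn]
      rw [show 2 + s = s + 2 by ring]
      exact h3
    · simpa only [pos, xn] using h4
  -- induction on `m`
  have key : ∀ k, k ≤ m → 0 < k → x < ((k * wid s + 1 : ℕ) : ℝ) → bot s m x < top s m x := by
    intro k
    induction k with
    | zero =>
      intro _ h
      exact absurd h (lt_irrefl _)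
    | succ k ih =>
      intro hk _ hx
      rcases lt_or_ge ((k * wid s + (s + 2) : ℕ) : ℝ) x with h | h
      · exact t3 k (by omega) h hx
      rcases lt_or_ge ((k * wid s : ℕ) : ℝ) x with h' | h'
      · refine t1 k (by omega) h' (lt_of_le_of_lt h ?_)
        exact_mod_cast (by omega : k * wid s + (s + 2) < k * wid s + (s + 3))
      · rcases Nat.eq_zero_or_pos k with rfl | hk0
        · simp only [pos, xn] at h1
          linarith
        · refine ih (by omega) hk0 (lt_of_le_of_lt h' ?_)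
          exact_mod_cast (by omega : k * wid s < k * wid s + 1)
  refine key m le_rfl hm ?_
  simpa only [pos, xn] using h2

/-- The chain of gadgets is a simple polygon. -/
theorem isSimplePolygon_poly {m : ℕ} (hm : 0 < m) : IsSimplePolygon (poly s m) (Poly s m) := by
  obtain ⟨Xi, hXi, hX⟩ := low_form (s := s) hm
  exact isSimplePolygon_of hX (rfl : upp s m = pos s (C 0) :: (uppI s m ++ [pos s (D m)])) hXi
    (low_sorted m) (upp_sorted hm) (bot_lt_top hm)

theorem mem_low_or_upp {m : ℕ} {z : Pt} (h : z ∈ poly s m) : z ∈ low s m ∨ z ∈ upp s m := by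
  rw [poly, List.mem_append, List.mem_reverse] at h
  rcases h with h | h
  · exact Or.inl h
  · right
    rw [upp]
    simp [h]

/-- The chain of triangulated gadgets is a triangulation. -/
theorem isTriangulation_chain {M : ℕ → Finset (Finset Pt)}
    (hM : ∀ (g : ℕ) (P Q : List Pt),
      Sweep (P ++ pos s (D g) :: (Ls s g 0 (s + 1) ++ pos s (C (g + 1)) :: Q))
        (P ++ pos s (D g) :: (Us s g (s + 1) ++ pos s (C (g + 1)) :: Q)) (M g))
    (hM' : ∀ m g, g < m → ∀ t ∈ M g, t ⊆ (poly s m).toFinset) {m : ℕ} (hm : 0 < m) :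
    IsTriangulation (Poly s m) (poly s m).toFinset (chain s M m) := by
  have hL := (chain_layer (s := s) hM hm).2
  have cL : pos s (C 0) ∈ low s m := by
    obtain ⟨Xi, -, h⟩ := low_form (s := s) hm
    rw [h]
    simp
  have cU : pos s (C 0) ∈ upp s m := by simp [upp]
  have dL : pos s (D m) ∈ low s m := by simp [low]
  have dU : pos s (D m) ∈ upp s m := by simp [upp]
  refine hL.isTriangulation _ ?_ ?_ rfl rfl (pl_of_mem (low_sorted m) cL)
    (pl_of_mem (upp_sorted hm) cU) (pl_of_mem (low_sorted m) dL) (pl_of_mem (upp_sorted hm) dU)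
    (bot_lt_top hm) ?_ ?_
  · intro t ht
    obtain ⟨g, hg, h | h | h⟩ := mem_chain.1 ht
    · subst h
      intro z hz
      simp only [tri1, Finset.mem_insert, Finset.mem_singleton] at hz
      rw [List.mem_toFinset, mem_poly]
      rcases hz with rfl | rfl | rfl
      · exact ⟨C g, hg.le, rfl⟩
      · exact ⟨D g, hg.le, rfl⟩
      · exact ⟨L g 0, ⟨hg, Nat.zero_le _⟩, rfl⟩
    · subst h
      intro z hz
      simp only [tri3, Finset.mem_insert, Finset.mem_singleton] at hz
      rw [List.mem_toFinset, mem_poly]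
      rcases hz with rfl | rfl | rfl
      · exact ⟨U g s, ⟨hg, le_rfl⟩, rfl⟩
      · exact ⟨C (g + 1), hg, rfl⟩
      · exact ⟨D (g + 1), hg, rfl⟩
    · exact hM' m g hg t h
  · intro z hz
    rw [List.mem_toFinset] at hz
    rcases mem_low_or_upp hz with h | h
    · left
      exact (pl_of_mem (low_sorted m) h).symm.le
    · right
      exact (pl_of_mem (upp_sorted hm) h).le
  · exact ⟨tri1 s 0, mem_chain.2 ⟨0, hm, Or.inl rfl⟩, by simp [tri1]⟩
  · refine ⟨tri3 s (m - 1), mem_chain.2 ⟨m - 1, by omega, Or.inr (Or.inl rfl)⟩, ?_⟩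
    rw [tri3, show m - 1 + 1 = m by omega]
    simp

theorem mid_subset {m g : ℕ} (hg : g < m) {t : Finset Pt}
    (h : t = triC s g ∨ t = triD s g ∨ (∃ i < s, ∃ j ≤ s, t = triU s g i j) ∨
      ∃ i ≤ s, ∃ j < s, t = triL s g i j) : t ⊆ (poly s m).toFinset := by
  intro z hz
  rw [List.mem_toFinset, mem_poly]
  rcases h with rfl | rfl | ⟨i, hi, j, hj, rfl⟩ | ⟨i, hi, j, hj, rfl⟩
  · simp only [triC, Finset.mem_insert, Finset.mem_singleton] at hz
    rcases hz with rfl | rfl | rfl
    · exact ⟨U g s, ⟨hg, le_rfl⟩, rfl⟩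
    · exact ⟨L g s, ⟨hg, le_rfl⟩, rfl⟩
    · exact ⟨C (g + 1), hg, rfl⟩
  · simp only [triD, Finset.mem_insert, Finset.mem_singleton] at hz
    rcases hz with rfl | rfl | rfl
    · exact ⟨D g, hg.le, rfl⟩
    · exact ⟨U g 0, ⟨hg, Nat.zero_le _⟩, rfl⟩
    · exact ⟨L g 0, ⟨hg, Nat.zero_le _⟩, rfl⟩
  · simp only [triU, Finset.mem_insert, Finset.mem_singleton] at hz
    rcases hz with rfl | rfl | rfl
    · exact ⟨U g i, ⟨hg, by omega⟩, rfl⟩
    · exact ⟨U g (i + 1), ⟨hg, by omega⟩, rfl⟩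
    · exact ⟨L g j, ⟨hg, hj⟩, rfl⟩
  · simp only [triL, Finset.mem_insert, Finset.mem_singleton] at hz
    rcases hz with rfl | rfl | rfl
    · exact ⟨U g i, ⟨hg, hi⟩, rfl⟩
    · exact ⟨L g j, ⟨hg, by omega⟩, rfl⟩
    · exact ⟨L g (j + 1), ⟨hg, by omega⟩, rfl⟩

theorem mem_midF {g : ℕ} {t : Finset Pt} : t ∈ midF s g ↔ t = triC s g ∨
    (∃ j < s, triL s g s j = t) ∨ (∃ i < s, triU s g i 0 = t) ∨ t = triD s g := by
  simp only [midF, Finset.mem_union, Finset.mem_singleton, Finset.mem_image, Finset.mem_range]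

theorem mem_midZ {g : ℕ} {t : Finset Pt} : t ∈ midZ s g ↔ t = triC s g ∨
    (∃ i < s, triU s g i s = t) ∨ (∃ j < s, triL s g 0 j = t) ∨ t = triD s g := by
  simp only [midZ, Finset.mem_union, Finset.mem_singleton, Finset.mem_image, Finset.mem_range]

/-- the first triangulation -/
theorem isTriangulation_F {m : ℕ} (hm : 0 < m) :
    IsTriangulation (Poly s m) (poly s m).toFinset (chain s (midF s) m) := by
  refine isTriangulation_chain sweep_midF ?_ hm
  intro m g hg t ht
  refine mid_subset hg ?_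
  rcases mem_midF.1 ht with h | ⟨j, hj, rfl⟩ | ⟨i, hi, rfl⟩ | h
  · exact Or.inl h
  · exact Or.inr (Or.inr (Or.inr ⟨s, le_rfl, j, hj, rfl⟩))
  · exact Or.inr (Or.inr (Or.inl ⟨i, hi, 0, Nat.zero_le _, rfl⟩))
  · exact Or.inr (Or.inl h)

/-- the second triangulation -/
theorem isTriangulation_Z {m : ℕ} (hm : 0 < m) :
    IsTriangulation (Poly s m) (poly s m).toFinset (chain s (midZ s) m) := by
  refine isTriangulation_chain sweep_midZ ?_ hm
  intro m g hg t ht
  refine mid_subset hg ?_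
  rcases mem_midZ.1 ht with h | ⟨i, hi, rfl⟩ | ⟨j, hj, rfl⟩ | h
  · exact Or.inl h
  · exact Or.inr (Or.inr (Or.inl ⟨i, hi, s, le_rfl, rfl⟩))
  · exact Or.inr (Or.inr (Or.inr ⟨0, Nat.zero_le _, j, hj, rfl⟩))
  · exact Or.inr (Or.inl h)

end Poly

end Pool.Agent.Q107.Flip
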