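import Pool.Agent.Q107.Flip.Sweep

/-!
# Monotone polygons
-/

set_option autoImplicit false

namespace Pool.Agent.Q107.Flip

theorem mem_pairs_iff {L : List Pt} {e : Pt × Pt} :
    e ∈ pairs L ↔ ∃ l₁ l₂, L = l₁ ++ e.1 :: e.2 :: l₂ := by
  induction L with
  | nil => simp [pairs]
  | cons a L ih =>
    cases L with
    | nil =>
      simp only [pairs, List.tail_cons, List.zip_nil_right, List.not_mem_nil, false_iff, not_exists]
      intro l₁ l₂ h
      have := congrArg List.length h
      simp at this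
      omega
    | cons b L =>
      have e1 : pairs (a :: b :: L) = (a, b) :: pairs (b :: L) := rfl
      rw [e1, List.mem_cons, ih]
      constructor
      · rintro (rfl | ⟨l₁, l₂, h⟩)
        · exact ⟨[], L, rfl⟩
        · exact ⟨a :: l₁, l₂, by rw [h]; rfl⟩
      · rintro ⟨l₁, l₂, h⟩
        cases l₁ with
        | nil =>
          left
          simp only [List.nil_append, List.cons.injEq] at h
          exact Prod.ext h.1.symm h.2.1.symm
        | cons c l₁ =>
          right
          simp only [List.cons_append, List.cons.injEq] at h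
          exact ⟨l₁, l₂, h.2⟩

theorem mem_pairs_append {l₁ l₂ : List Pt} {a : Pt} {e : Pt × Pt} :
    e ∈ pairs (l₁ ++ a :: l₂) ↔ e ∈ pairs (l₁ ++ [a]) ∨ e ∈ pairs (a :: l₂) := by
  induction l₁ with
  | nil => simp [pairs]
  | cons b l ih =>
    cases l with
    | nil =>
      have e1 : pairs ([b] ++ a :: l₂) = (b, a) :: pairs (a :: l₂) := rfl
      have e2 : pairs ([b] ++ [a]) = [(b, a)] := rfl
      rw [e1, e2]
      simp
    | cons c l =>
      have e1 : pairs ((b :: c :: l) ++ a :: l₂) = (b, c) :: pairs ((c :: l) ++ a :: l₂) := rfl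
      have e2 : pairs ((b :: c :: l) ++ [a]) = (b, c) :: pairs ((c :: l) ++ [a]) := rfl
      rw [e1, e2, List.mem_cons, List.mem_cons, ih, or_assoc]

theorem mem_pairs_reverse {L : List Pt} {e : Pt × Pt} :
    e ∈ pairs L.reverse ↔ (e.2, e.1) ∈ pairs L := by
  rw [mem_pairs_iff, mem_pairs_iff]
  constructor
  · rintro ⟨l₁, l₂, h⟩
    refine ⟨l₂.reverse, l₁.reverse, ?_⟩
    have := congrArg List.reverse h
    rw [List.reverse_reverse] at this
    rw [this]
    simp
  · rintro ⟨l₁, l₂, h⟩
    refine ⟨l₂.reverse, l₁.reverse, ?_⟩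
    rw [h]
    simp

theorem XSorted.of_mem_pairs {L : List Pt} (h : XSorted L) {e : Pt × Pt} (he : e ∈ pairs L) :
    e.1.1 < e.2.1 := by
  obtain ⟨l₁, l₂, rfl⟩ := mem_pairs_iff.1 he
  exact List.rel_of_pairwise_cons (List.pairwise_append.1 h).2.1 (by simp)

theorem mem_segment_iff {a b : Pt} (h : a.1 < b.1) (z : Pt) :
    z ∈ segment ℝ a b ↔ a.1 ≤ z.1 ∧ z.1 ≤ b.1 ∧ z.2 = lin a b z.1 := by
  have hne : b.1 - a.1 ≠ 0 := by linarith
  constructor
  · rintro ⟨r, s, hr, hs, hrs, rfl⟩
    have hr1 : r = 1 - s := by linarith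
    subst hr1
    simp only [Prod.fst_add, Prod.smul_fst, smul_eq_mul, Prod.snd_add, Prod.smul_snd]
    refine ⟨?_, ?_, ?_⟩
    · nlinarith
    · nlinarith
    · simp only [lin]
      field_simp
      ring
  · rintro ⟨h1, h2, h3⟩
    refine ⟨(b.1 - z.1) / (b.1 - a.1), (z.1 - a.1) / (b.1 - a.1),
      div_nonneg (by linarith) (by linarith), div_nonneg (by linarith) (by linarith), ?_, ?_⟩
    · field_simp
      ring
    · refine Prod.ext ?_ ?_
      · simp only [Prod.fst_add, Prod.smul_fst, smul_eq_mul]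
        field_simp
        ring
      · simp only [Prod.snd_add, Prod.smul_snd, smul_eq_mul]
        rw [h3, lin]
        field_simp
        ring

theorem pl_of_mem_pairs {L : List Pt} (h : XSorted L) {e : Pt × Pt} (he : e ∈ pairs L) {x : ℝ}
    (h1 : e.1.1 ≤ x) (h2 : x ≤ e.2.1) : pl L x = lin e.1 e.2 x := by
  obtain ⟨l₁, l₂, rfl⟩ := mem_pairs_iff.1 he
  exact pl_mid h h1 h2

theorem pl_of_mem {L : List Pt} (h : XSorted L) {a : Pt} (ha : a ∈ L) : pl L a.1 = a.2 := by
  obtain ⟨l₁, l₂, rfl⟩ := List.append_of_mem ha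
  exact pl_mem h

theorem XSorted.head_le {L : List Pt} (h : XSorted L) {p : Pt} (hp : L.head? = some p) {a : Pt}
    (ha : a ∈ L) : p.1 ≤ a.1 := by
  cases L with
  | nil => simp at hp
  | cons d L =>
    simp at hp
    subst hp
    rcases List.mem_cons.1 ha with rfl | ha
    · exact le_rfl
    · exact (List.rel_of_pairwise_cons h ha).le

theorem XSorted.le_last {L : List Pt} (h : XSorted L) {q : Pt} (hq : L.getLast? = some q) {a : Pt}
    (ha : a ∈ L) : a.1 ≤ q.1 := by
  rcases List.eq_nil_or_concat L with rfl | ⟨L', d, rfl⟩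
  · simp at hq
  · rw [List.concat_eq_append] at *
    simp at hq
    subst hq
    rcases List.mem_append.1 ha with ha | ha
    · exact ((List.pairwise_append.1 h).2.2 a ha d (by simp)).le
    · simp at ha
      rw [ha]

theorem XSorted.eq_of_fst {L : List Pt} (h : XSorted L) {a b : Pt} (ha : a ∈ L) (hb : b ∈ L)
    (hab : a.1 = b.1) : a = b := by
  by_contra hne
  have h' : L.Pairwise fun a b : Pt => a.1 ≠ b.1 := List.Pairwise.imp (fun h => h.ne) h
  have : Std.Symm fun a b : Pt => a.1 ≠ b.1 := ⟨fun _ _ h => Ne.symm h⟩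
  exact h'.forall ha hb hne hab

theorem XSorted.pairs_rel {L : List Pt} (h : XSorted L) :
    (pairs L).Pairwise fun e e' => e.2.1 ≤ e'.1.1 := by
  induction L with
  | nil => exact List.Pairwise.nil
  | cons a L ih =>
    cases L with
    | nil => exact List.Pairwise.nil
    | cons b L =>
      have e1 : pairs (a :: b :: L) = (a, b) :: pairs (b :: L) := rfl
      have h' : XSorted (b :: L) := List.Pairwise.of_cons h
      rw [e1, List.pairwise_cons]
      refine ⟨?_, ih h'⟩
      intro e he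
      obtain ⟨l₁, l₂, h2⟩ := mem_pairs_iff.1 he
      exact h'.head_le rfl (by rw [h2]; simp)

theorem XSorted.pairs_sep {L : List Pt} (h : XSorted L) {e e' : Pt × Pt} (he : e ∈ pairs L)
    (he' : e' ∈ pairs L) (hne : e ≠ e') : e.2.1 ≤ e'.1.1 ∨ e'.2.1 ≤ e.1.1 := by
  have h1 : (pairs L).Pairwise fun e e' => e.2.1 ≤ e'.1.1 ∨ e'.2.1 ≤ e.1.1 :=
    List.Pairwise.imp (fun h => Or.inl h) h.pairs_rel
  have : Std.Symm fun e e' : Pt × Pt => e.2.1 ≤ e'.1.1 ∨ e'.2.1 ≤ e.1.1 :=
    ⟨fun _ _ h => Or.symm h⟩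
  exact h1.forall he he' hne

/-- two different edges of a monotone path meet at most in a common end point -/
theorem XSorted.segments {L : List Pt} (h : XSorted L) {e e' : Pt × Pt} (he : e ∈ pairs L)
    (he' : e' ∈ pairs L) (hne : e ≠ e') {z : Pt} (hz : z ∈ segment ℝ e.1 e.2)
    (hz' : z ∈ segment ℝ e'.1 e'.2) : (z = e.1 ∨ z = e.2) ∧ (z = e'.1 ∨ z = e'.2) := by
  have l1 := h.of_mem_pairs he
  have l2 := h.of_mem_pairs he'
  rw [mem_segment_iff l1] at hz
  rw [mem_segment_iff l2] at hz'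
  rcases h.pairs_sep he he' hne with h1 | h1
  · have e1 : z.1 = e.2.1 := le_antisymm hz.2.1 (h1.trans hz'.1)
    have e2 : z.1 = e'.1.1 := le_antisymm (hz.2.1.trans h1) hz'.1
    constructor
    · right
      refine Prod.ext e1 ?_
      rw [hz.2.2, e1, lin_right l1]
    · left
      refine Prod.ext e2 ?_
      rw [hz'.2.2, e2, lin_left]
  · have e1 : z.1 = e'.2.1 := le_antisymm hz'.2.1 (h1.trans hz.1)
    have e2 : z.1 = e.1.1 := le_antisymm (hz'.2.1.trans h1) hz.1
    constructor
    · left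
      refine Prod.ext e2 ?_
      rw [hz.2.2, e2, lin_left]
    · right
      refine Prod.ext e1 ?_
      rw [hz'.2.2, e1, lin_right l2]

/-- the edges of a monotone path form the graph of its function -/
theorem mem_graph_iff {L : List Pt} (h : XSorted L) {p q : Pt} (hp : L.head? = some p)
    (hq : L.getLast? = some q) (hpq : p ≠ q) (z : Pt) :
    (∃ e ∈ pairs L, z ∈ segment ℝ e.1 e.2) ↔ p.1 ≤ z.1 ∧ z.1 ≤ q.1 ∧ z.2 = pl L z.1 := by
  constructor
  · rintro ⟨e, he, hz⟩
    have l1 := h.of_mem_pairs he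
    rw [mem_segment_iff l1] at hz
    have m1 : e.1 ∈ L := by
      obtain ⟨l₁, l₂, rfl⟩ := mem_pairs_iff.1 he
      simp
    have m2 : e.2 ∈ L := by
      obtain ⟨l₁, l₂, rfl⟩ := mem_pairs_iff.1 he
      simp
    refine ⟨(h.head_le hp m1).trans hz.1, hz.2.1.trans (h.le_last hq m2), ?_⟩
    rw [pl_of_mem_pairs h he hz.1 hz.2.1]
    exact hz.2.2
  · rintro ⟨h1, h2, h3⟩
    induction L generalizing p with
    | nil => simp at hp
    | cons a L ih =>
      cases L with
      | nil =>
        simp at hp hq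
        exact absurd (hp.symm.trans hq) hpq
      | cons b L =>
        have hab : a.1 < b.1 := List.rel_of_pairwise_cons h (by simp)
        have e1 : pairs (a :: b :: L) = (a, b) :: pairs (b :: L) := rfl
        simp at hp
        subst hp
        rcases le_or_gt z.1 b.1 with h4 | h4
        · refine ⟨(a, b), by rw [e1]; simp, ?_⟩
          rw [mem_segment_iff hab]
          refine ⟨h1, h4, ?_⟩
          rw [h3, pl_cons_cons, if_pos h4]
        · have h' : XSorted (b :: L) := List.Pairwise.of_cons h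
          have hq' : (b :: L).getLast? = some q := by
            rw [← hq]
            simp [List.getLast?_cons_cons]
          have hbq : b ≠ q := by
            rintro rfl
            linarith
          have h3' : z.2 = pl (b :: L) z.1 := by
            rw [h3, pl_cons_cons, if_neg (not_le.2 h4)]
          obtain ⟨e, he, hz⟩ := ih h' rfl hq' hbq h4.le h3'
          exact ⟨e, by rw [e1]; exact List.mem_cons_of_mem _ he, hz⟩

/-- the region between two monotone paths -/
def region (A B : ℝ) (F G : ℝ → ℝ) : Set Pt :=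
  {z | A ≤ z.1 ∧ z.1 ≤ B ∧ F z.1 ≤ z.2 ∧ z.2 ≤ G z.1}

section Region

variable {A B : ℝ} {F G : ℝ → ℝ}

theorem isClosed_region (hF : Continuous F) (hG : Continuous G) : IsClosed (region A B F G) := by
  have h1 : IsClosed {z : Pt | A ≤ z.1} := isClosed_le continuous_const continuous_fst
  have h2 : IsClosed {z : Pt | z.1 ≤ B} := isClosed_le continuous_fst continuous_const
  have h3 : IsClosed {z : Pt | F z.1 ≤ z.2} :=
    isClosed_le (hF.comp continuous_fst) continuous_snd
  have h4 : IsClosed {z : Pt | z.2 ≤ G z.1} :=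
    isClosed_le continuous_snd (hG.comp continuous_fst)
  exact h1.inter (h2.inter (h3.inter h4))

theorem isCompact_region (hF : Continuous F) (hG : Continuous G) :
    IsCompact (region A B F G) := by
  obtain ⟨m, hm⟩ := (isCompact_Icc (a := A) (b := B)).bddBelow_image hF.continuousOn
  obtain ⟨M, hM⟩ := (isCompact_Icc (a := A) (b := B)).bddAbove_image hG.continuousOn
  refine (isCompact_Icc.prod isCompact_Icc : IsCompact (Set.Icc A B ×ˢ Set.Icc m M)).of_isClosed_subset
    (isClosed_region hF hG) ?_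
  rintro z ⟨h1, h2, h3, h4⟩
  have e1 : m ≤ F z.1 := hm ⟨z.1, ⟨h1, h2⟩, rfl⟩
  have e2 : G z.1 ≤ M := hM ⟨z.1, ⟨h1, h2⟩, rfl⟩
  exact ⟨⟨h1, h2⟩, ⟨e1.trans h3, h4.trans e2⟩⟩

theorem mem_interior_region (hF : Continuous F) (hG : Continuous G) (z : Pt) :
    z ∈ interior (region A B F G) ↔ A < z.1 ∧ z.1 < B ∧ F z.1 < z.2 ∧ z.2 < G z.1 := by
  constructor
  · intro hz
    obtain ⟨ε, hε, h1, h2⟩ := exists_vertical hz
    obtain ⟨δ, hδ, h3⟩ := exists_direction hz (1, 0)
    obtain ⟨δ', hδ', h4⟩ := exists_direction hz (-1, 0)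
    simp only [region, Set.mem_ofPred_eq] at h1 h2 h3 h4
    refine ⟨?_, ?_, ?_, ?_⟩
    · linarith [h4.1]
    · linarith [h3.2.1]
    · linarith [h2.2.2.1]
    · linarith [h1.2.2.2]
  · intro hz
    refine mem_interior.2 ⟨{z : Pt | A < z.1} ∩ {z : Pt | z.1 < B} ∩
      ({z : Pt | F z.1 < z.2} ∩ {z : Pt | z.2 < G z.1}), ?_, ?_, ?_⟩
    · rintro w ⟨⟨h1, h2⟩, h3, h4⟩
      exact ⟨le_of_lt h1, le_of_lt h2, le_of_lt h3, le_of_lt h4⟩
    · exact ((isOpen_lt continuous_const continuous_fst).inter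
        (isOpen_lt continuous_fst continuous_const)).inter
        ((isOpen_lt (hF.comp continuous_fst) continuous_snd).inter
        (isOpen_lt continuous_snd (hG.comp continuous_fst)))
    · exact ⟨⟨hz.1, hz.2.1⟩, hz.2.2.1, hz.2.2.2⟩

theorem mem_frontier_region (hF : Continuous F) (hG : Continuous G) (hA : F A = G A)
    (hB : F B = G B) (hFG : ∀ x, A ≤ x → x ≤ B → F x ≤ G x) (z : Pt) :
    z ∈ frontier (region A B F G) ↔ A ≤ z.1 ∧ z.1 ≤ B ∧ (z.2 = F z.1 ∨ z.2 = G z.1) := by
  rw [(isClosed_region hF hG).frontier_eq, Set.mem_sdiff, mem_interior_region hF hG]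
  constructor
  · rintro ⟨⟨h1, h2, h3, h4⟩, h5⟩
    refine ⟨h1, h2, ?_⟩
    by_contra h6
    push Not at h6
    apply h5
    have h7 : F z.1 < z.2 := lt_of_le_of_ne h3 (Ne.symm h6.1)
    have h8 : z.2 < G z.1 := lt_of_le_of_ne h4 h6.2
    refine ⟨lt_of_le_of_ne h1 ?_, lt_of_le_of_ne h2 ?_, h7, h8⟩
    · intro h9
      rw [← h9] at h7 h8
      linarith
    · intro h9
      rw [h9] at h7 h8
      linarith
  · rintro ⟨h1, h2, h3⟩
    have h4 := hFG z.1 h1 h2
    refine ⟨⟨h1, h2, ?_, ?_⟩, ?_⟩
    · rcases h3 with h3 | h3 <;> rw [h3]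
      exact h4
    · rcases h3 with h3 | h3 <;> rw [h3]
      exact h4
    · rintro ⟨-, -, h5, h6⟩
      rcases h3 with h3 | h3 <;> linarith

end Region

/-- A monotone polygon is a simple polygon. -/
theorem isSimplePolygon_of {X Xi Y Yi : List Pt} {p q : Pt} (hX : X = p :: (Xi ++ [q]))
    (hY : Y = p :: (Yi ++ [q])) (hXi : Xi ≠ []) (sX : XSorted X) (sY : XSorted Y)
    (hlt : ∀ x, p.1 < x → x < q.1 → pl X x < pl Y x) :
    IsSimplePolygon (X ++ Yi.reverse) (region p.1 q.1 (pl X) (pl Y)) := by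
  have pX : X.head? = some p := by rw [hX]; rfl
  have qX : X.getLast? = some q := by rw [hX]; simp [List.getLast?_cons]
  have pY : Y.head? = some p := by rw [hY]; rfl
  have qY : Y.getLast? = some q := by rw [hY]; simp [List.getLast?_cons]
  have hpq : p.1 < q.1 := by
    have h1 := sX
    rw [hX] at h1
    exact List.rel_of_pairwise_cons h1 (by simp)
  have hpq' : p ≠ q := by
    rintro rfl
    exact lt_irrefl _ hpq
  have mpX : p ∈ X := by rw [hX]; simp
  have mqX : q ∈ X := by rw [hX]; simp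
  have mpY : p ∈ Y := by rw [hY]; simp
  have mqY : q ∈ Y := by rw [hY]; simp
  have eA : pl X p.1 = pl Y p.1 := by rw [pl_of_mem sX mpX, pl_of_mem sY mpY]
  have eB : pl X q.1 = pl Y q.1 := by rw [pl_of_mem sX mqX, pl_of_mem sY mqY]
  have hle : ∀ x, p.1 ≤ x → x ≤ q.1 → pl X x ≤ pl Y x := by
    intro x h1 h2
    rcases eq_or_lt_of_le h1 with h1 | h1
    · rw [← h1, eA]
    rcases eq_or_lt_of_le h2 with h2 | h2
    · rw [h2, eB]
    · exact (hlt x h1 h2).le
  -- the edges
  have hedges : ∀ e : Pt × Pt, e ∈ edges (X ++ Yi.reverse) ↔ e ∈ pairs X ∨ (e.2, e.1) ∈ pairs Y := by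
    intro e
    have h1 : (X ++ Yi.reverse).take 1 = [p] := by rw [hX]; simp
    have h2 : X ++ Yi.reverse ++ [p] = (p :: Xi) ++ q :: (Yi.reverse ++ [p]) := by
      rw [hX]
      simp
    have h3 : q :: (Yi.reverse ++ [p]) = Y.reverse := by
      rw [hY]
      simp
    have h4 : (p :: Xi) ++ [q] = X := by
      rw [hX]
      simp
    rw [edges, h1, h2, mem_pairs_append, h3, h4, mem_pairs_reverse]
  have hcont1 := continuous_pl sX
  have hcont2 := continuous_pl sY
  refine ⟨?_, ?_, ?_, isCompact_region hcont1 hcont2, ?_, ?_⟩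
  · rw [hX]
    cases Xi with
    | nil => exact absurd rfl hXi
    | cons d Xi => simp; omega
  · rw [List.nodup_append]
    refine ⟨?_, ?_, ?_⟩
    · exact List.Pairwise.imp (fun {a b} h => by rintro rfl; exact lt_irrefl _ h) sX
    · rw [List.nodup_reverse]
      have h1 := sY
      rw [hY] at h1
      have h2 := (List.pairwise_append.1 (List.Pairwise.of_cons h1)).1
      exact List.Pairwise.imp (fun {a b} h => by rintro rfl; exact lt_irrefl _ h) h2
    · rintro a ha b hb rfl
      rw [List.mem_reverse] at hb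
      have h1 := sY
      rw [hY] at h1
      have h2 : p.1 < a.1 := List.rel_of_pairwise_cons h1 (by simp [hb])
      have h3 : a.1 < q.1 := (List.pairwise_append.1 (List.Pairwise.of_cons h1)).2.2 a hb q (by simp)
      have h4 : a ∈ Y := by rw [hY]; simp [hb]
      have h5 := hlt a.1 h2 h3
      rw [pl_of_mem sX ha, pl_of_mem sY h4] at h5
      exact lt_irrefl _ h5
  · intro e he e' he' hne z hz
    rw [hedges] at he he'
    obtain ⟨hz, hz'⟩ := hz
    simp only [Set.mem_inter_iff, Set.mem_insert_iff, Set.mem_singleton_iff]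
    -- an edge of X and an edge of Y
    have mixed : ∀ e ∈ pairs X, ∀ e' ∈ pairs Y, z ∈ segment ℝ e.1 e.2 → z ∈ segment ℝ e'.1 e'.2 →
        (z = e.1 ∨ z = e.2) ∧ (z = e'.1 ∨ z = e'.2) := by
      intro e he e' he' hz hz'
      have g1 := (mem_graph_iff sX pX qX hpq' z).1 ⟨e, he, hz⟩
      have g2 := (mem_graph_iff sY pY qY hpq' z).1 ⟨e', he', hz'⟩
      have g3 : z.1 = p.1 ∨ z.1 = q.1 := by
        by_contra hcon
        push Not at hcon
        have := hlt z.1 (lt_of_le_of_ne g1.1 (Ne.symm hcon.1)) (lt_of_le_of_ne g1.2.1 hcon.2)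
        rw [← g1.2.2, ← g2.2.2] at this
        exact lt_irrefl _ this
      have key : ∀ {L : List Pt}, XSorted L → L.head? = some p → L.getLast? = some q →
          ∀ e ∈ pairs L, z ∈ segment ℝ e.1 e.2 → z = e.1 ∨ z = e.2 := by
        intro L sL pL qL e he hz
        have l1 := sL.of_mem_pairs he
        have hz2 := (mem_segment_iff l1 z).1 hz
        have m1 : e.1 ∈ L := by
          obtain ⟨l₁, l₂, rfl⟩ := mem_pairs_iff.1 he
          simp
        have m2 : e.2 ∈ L := by
          obtain ⟨l₁, l₂, rfl⟩ := mem_pairs_iff.1 he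
          simp
        rcases g3 with g3 | g3
        · left
          have e1 : z.1 = e.1.1 := le_antisymm (by rw [g3]; exact sL.head_le pL m1) hz2.1
          refine Prod.ext e1 ?_
          rw [hz2.2.2, e1, lin_left]
        · right
          have e1 : z.1 = e.2.1 := le_antisymm hz2.2.1 (by rw [g3]; exact sL.le_last qL m2)
          refine Prod.ext e1 ?_
          rw [hz2.2.2, e1, lin_right l1]
      exact ⟨key sX pX qX e he hz, key sY pY qY e' he' hz'⟩
    rcases he with he | he <;> rcases he' with he' | he'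
    · exact sX.segments he he' hne hz hz'
    · rw [segment_symm] at hz'
      obtain ⟨h1, h2⟩ := mixed e he _ he' hz hz'
      exact ⟨h1, h2.symm⟩
    · rw [segment_symm] at hz
      obtain ⟨h1, h2⟩ := mixed e' he' _ he hz' hz
      exact ⟨h2.symm, h1⟩
    · rw [segment_symm] at hz hz'
      have hne' : (e.2, e.1) ≠ (e'.2, e'.1) := by
        intro h
        apply hne
        simp only [Prod.mk.injEq] at h
        exact Prod.ext h.2 h.1
      obtain ⟨h1, h2⟩ := sY.segments he he' hne' hz hz'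
      exact ⟨h1.symm, h2.symm⟩
  · set x := (p.1 + q.1) / 2 with hx
    have h1 := hlt x (by rw [hx]; linarith) (by rw [hx]; linarith)
    refine ⟨(x, (pl X x + pl Y x) / 2), ?_⟩
    rw [mem_interior_region hcont1 hcont2]
    refine ⟨?_, ?_, ?_, ?_⟩ <;> simp only <;> linarith
  · ext z
    rw [mem_frontier_region hcont1 hcont2 eA eB hle]
    simp only [Set.mem_iUnion, exists_prop]
    have g1 := mem_graph_iff sX pX qX hpq' z
    have g2 := mem_graph_iff sY pY qY hpq' z
    constructor
    · rintro ⟨h1, h2, h3 | h3⟩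
      · obtain ⟨e, he, hz⟩ := g1.2 ⟨h1, h2, h3⟩
        exact ⟨e, (hedges e).2 (Or.inl he), hz⟩
      · obtain ⟨e, he, hz⟩ := g2.2 ⟨h1, h2, h3⟩
        refine ⟨(e.2, e.1), (hedges _).2 (Or.inr he), ?_⟩
        rw [segment_symm]
        exact hz
    · rintro ⟨e, he, hz⟩
      rcases (hedges e).1 he with he | he
      · obtain ⟨h1, h2, h3⟩ := g1.1 ⟨e, he, hz⟩
        exact ⟨h1, h2, Or.inl h3⟩
      · rw [segment_symm] at hz
        obtain ⟨h1, h2, h3⟩ := g2.1 ⟨_, he, hz⟩
        exact ⟨h1, h2, Or.inr h3⟩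

theorem card_of_det {a b c : Pt} (h : det a b c ≠ 0) : ({a, b, c} : Finset Pt).card = 3 := by
  have h1 : a ≠ b := by
    rintro rfl
    apply h
    simp [det]
  have h2 : a ≠ c := by
    rintro rfl
    apply h
    simp [det]
  have h3 : b ≠ c := by
    rintro rfl
    apply h
    simp only [det]
    ring
  rw [Finset.card_eq_three]
  exact ⟨a, b, c, h1, h2, h3, rfl⟩

/-- A layer between two paths gives a triangulation. -/
theorem Layer.isTriangulation {A B : ℝ} {F G : ℝ → ℝ} {T : Finset (Finset Pt)}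
    (h : Layer A B F G T) (S : Finset Pt) (hS : ∀ t ∈ T, t ⊆ S)
    (hS' : ∀ s ∈ S, s.2 ≤ F s.1 ∨ G s.1 ≤ s.2) {p q : Pt} (hp : p.1 = A) (hq : q.1 = B)
    (hpF : F A = p.2) (hpG : G A = p.2) (hqF : F B = q.2) (hqG : G B = q.2)
    (hlt : ∀ x, A < x → x < B → F x < G x)
    (hpT : ∃ t ∈ T, p ∈ t) (hqT : ∃ t ∈ T, q ∈ t) :
    IsTriangulation (region A B F G) S T where
  card t ht := by
    obtain ⟨a, b, c, rfl, hd⟩ := h.form t ht
    exact card_of_det hd
  subset := hS
  nondeg t ht := by
    obtain ⟨a, b, c, rfl, hd⟩ := h.form t ht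
    exact interior_hull_nonempty' hd
  disj := h.disj
  union := by
    ext z
    simp only [Set.mem_iUnion, exists_prop]
    constructor
    · rintro ⟨t, ht, hz⟩
      exact h.sub t ht z hz
    · rintro ⟨h1, h2, h3, h4⟩
      have sub : ∀ (x : Pt) (t : Finset Pt), x ∈ t → x ∈ hull t := fun x t hx =>
        subset_convexHull ℝ _ (by simpa using hx)
      rcases eq_or_lt_of_le h1 with h1 | h1
      · obtain ⟨t, ht, hpt⟩ := hpT
        have : z = p := by
          refine Prod.ext (by rw [← h1, hp]) ?_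
          rw [← h1] at h3 h4
          linarith
        exact ⟨t, ht, by rw [this]; exact sub p t hpt⟩
      rcases eq_or_lt_of_le h2 with h2 | h2
      · obtain ⟨t, ht, hqt⟩ := hqT
        have : z = q := by
          refine Prod.ext (by rw [h2, hq]) ?_
          rw [h2] at h3 h4
          linarith
        exact ⟨t, ht, by rw [this]; exact sub q t hqt⟩
      · exact h.cover z h1.le h2.le h3 h4 (hlt _ h1 h2)
  empty t ht s hs hz := by
    have := h.interior ht hz
    rcases hS' s hs with h1 | h1 <;> linarith [this.1, this.2]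

end Pool.Agent.Q107.Flip
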