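import Pool.Agent.Q107.Flip.Flips

/-!
# Steiner points and the lower bound
-/

set_option autoImplicit false

namespace Pool.Agent.Q107.Flip

open Vx

section Steiner

variable {s m : ℕ} {Gs : Finset ℕ}

theorem good_of_triangulation {T : Finset (Finset Pt)}
    (hT : IsTriangulation (Poly s m) (poly s m).toFinset T) : ∀ t ∈ T, Good s m Gs t := by
  intro t ht
  refine ⟨hT.card t ht, hT.nondeg t ht, ?_, ?_⟩
  · rw [← hT.union]
    exact Set.subset_biUnion_of_mem (u := fun t => hull t) ht
  · intro z hz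
    exact Or.inl (mem_poly.1 (List.mem_toFinset.1 (hT.subset t ht hz)))

theorem good_insert {P : Set Pt} {x : Pt} {T T' : Finset (Finset Pt)}
    (hT : ∀ t ∈ T, Good s m Gs t) (hx : Outside s Gs x) (h : InsertPoint P x T T') :
    ∀ t ∈ T', Good s m Gs t := by
  obtain ⟨-, t, ht, hxt, rfl⟩ := h
  have hg := hT t ht
  intro t' ht'
  rcases Finset.mem_union.1 ht' with ht' | ht'
  · exact hT t' (Finset.mem_of_mem_erase ht')
  · obtain ⟨a, ha, rfl⟩ := Finset.mem_image.1 ht'
    have hcard : (t.erase a).card = 2 := by rw [Finset.card_erase_of_mem ha, hg.card]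
    obtain ⟨p, q, hpq, he⟩ := Finset.card_eq_two.1 hcard
    have ht0 : t = {p, q, a} := by
      rw [← Finset.insert_erase ha, he]
      ext y
      simp only [Finset.mem_insert, Finset.mem_singleton]
      tauto
    have hdet : det p q a ≠ 0 := by
      refine det_ne_zero_of_nonempty ?_
      rw [← ht0]
      exact hg.nd
    have hdet' : det p q x ≠ 0 := by
      refine det_ne_zero_of_interior hdet ?_
      rw [← ht0]
      exact hxt
    have ht1 : insert x (t.erase a) = {p, q, x} := by
      rw [he]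
      ext y
      simp only [Finset.mem_insert, Finset.mem_singleton]
      tauto
    rw [ht1]
    have hp : p ∈ t := by rw [ht0]; simp
    have hq : q ∈ t := by rw [ht0]; simp
    refine ⟨card_of_det hdet', interior_hull_nonempty' hdet', ?_, ?_⟩
    · refine Set.Subset.trans ?_ hg.sub
      refine convexHull_min ?_ (hull_convex t)
      intro y hy
      simp only [Finset.coe_insert, Finset.coe_singleton, Set.mem_insert_iff,
        Set.mem_singleton_iff] at hy
      rcases hy with rfl | rfl | rfl
      · exact mem_hull_self hp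
      · exact mem_hull_self hq
      · exact interior_subset hxt
    · intro y hy
      simp only [Finset.mem_insert, Finset.mem_singleton] at hy
      rcases hy with rfl | rfl | rfl
      · exact hg.adm _ hp
      · exact hg.adm _ hq
      · exact Or.inr hx

theorem good_inserts {P : Set Pt} {q : List Pt} {T T' : Finset (Finset Pt)}
    (h : InsertPoints P q T T') (hT : ∀ t ∈ T, Good s m Gs t) (hq : ∀ x ∈ q, Outside s Gs x) :
    ∀ t ∈ T', Good s m Gs t := by
  induction h with
  | nil => exact hT
  | cons h _ ih =>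
    exact ih (good_insert hT (hq _ (by simp)) h) fun x hx => hq x (by simp [hx])

theorem mem_of_inserts {P : Set Pt} {q : List Pt} {T T' : Finset (Finset Pt)}
    (h : InsertPoints P q T T') {t : Finset Pt} (ht : t ∈ T') : t ∈ T ∨ ∃ x ∈ q, x ∈ t := by
  induction h with
  | nil => exact Or.inl ht
  | @cons x q T T' T'' h _ ih =>
    rcases ih ht with h1 | ⟨y, hy, hyt⟩
    · obtain ⟨-, t0, ht0, -, rfl⟩ := h
      rcases Finset.mem_union.1 h1 with h1 | h1
      · exact Or.inl (Finset.mem_of_mem_erase h1)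
      · obtain ⟨a, -, rfl⟩ := Finset.mem_image.1 h1
        exact Or.inr ⟨x, by simp, by simp⟩
    · exact Or.inr ⟨y, by simp [hy], hyt⟩

theorem mem_inserts_of {P : Set Pt} {q : List Pt} {T T' : Finset (Finset Pt)}
    (h : InsertPoints P q T T') {t : Finset Pt} (ht : t ∈ T) (hq : ∀ x ∈ q, x ∉ hull t) :
    t ∈ T' := by
  induction h with
  | nil => exact ht
  | @cons x q T T' T'' h _ ih =>
    refine ih ?_ fun y hy => hq y (by simp [hy])
    obtain ⟨-, t0, ht0, hx0, rfl⟩ := h
    refine Finset.mem_union_left _ (Finset.mem_erase.2 ⟨?_, ht⟩)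
    rintro rfl
    exact hq x (by simp) (interior_subset hx0)

/-! ### Weights of the two triangulations -/

theorem triU_mem {g i j : ℕ} (hi : i < s) (hj : j ≤ s) {v : Vx} (hv : Valid s v)
    (h : pos s v ∈ triU s g i j) : v = U g i ∨ v = U g (i + 1) ∨ v = L g j := by
  simp only [triU, Finset.mem_insert, Finset.mem_singleton] at h
  rcases h with h | h | h
  · exact Or.inl (pos_inj hv (show Valid s (U g i) from by change i ≤ s; omega) h)
  · exact Or.inr (Or.inl (pos_inj hv (show Valid s (U g (i + 1)) from hi) h))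
  · exact Or.inr (Or.inr (pos_inj hv (show Valid s (L g j) from hj) h))

/-- the points of `triU` are in the strip -/
theorem triU_strip {g i j : ℕ} (hi : i < s) (hj : j ≤ s) {x : Pt}
    (hx : x ∈ hull (triU s g i j)) :
    ((g * wid s : ℕ) : ℝ) ≤ x.1 ∧ x.1 < (((g + 1) * wid s : ℕ) : ℝ) := by
  rw [triU, hull_triple, mem_hull3] at hx
  obtain ⟨α, β, γ, hα, hβ, hγ, hsum, e1, -⟩ := hx
  have key : ∀ v, g * wid s ≤ xn s v → xn s v + 1 ≤ (g + 1) * wid s →
      ((g * wid s : ℕ) : ℝ) ≤ (pos s v).1 ∧ (pos s v).1 + 1 ≤ (((g + 1) * wid s : ℕ) : ℝ) := by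
    intro v h1 h2
    constructor
    · change ((g * wid s : ℕ) : ℝ) ≤ (xn s v : ℝ)
      exact_mod_cast h1
    · change (xn s v : ℝ) + 1 ≤ (((g + 1) * wid s : ℕ) : ℝ)
      exact_mod_cast h2
  have hw : wid s = 2 * s + 4 := rfl
  have k1 := key (U g i) (by simp only [xn]; omega) (by simp only [xn, Nat.add_mul, one_mul]; omega)
  have k2 := key (U g (i + 1)) (by simp only [xn]; omega)
    (by simp only [xn, Nat.add_mul, one_mul]; omega)
  have k3 := key (L g j) (by simp only [xn]; omega) (by simp only [xn, Nat.add_mul, one_mul]; omega)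
  set A := ((g * wid s : ℕ) : ℝ)
  set B := (((g + 1) * wid s : ℕ) : ℝ)
  rw [e1]
  constructor
  · have l1 := mul_le_mul_of_nonneg_left k1.1 hα
    have l2 := mul_le_mul_of_nonneg_left k2.1 hβ
    have l3 := mul_le_mul_of_nonneg_left k3.1 hγ
    have l4 : α * A + β * A + γ * A = A := by rw [← add_mul, ← add_mul, hsum, one_mul]
    linarith
  · have l1 := mul_le_mul_of_nonneg_left k1.2 hα
    have l2 := mul_le_mul_of_nonneg_left k2.2 hβ
    have l3 := mul_le_mul_of_nonneg_left k3.2 hγ
    have l4 : α * B + β * B + γ * B = B := by rw [← add_mul, ← add_mul, hsum, one_mul]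
    have l5 : α * ((pos s (U g i)).1 + 1) + β * ((pos s (U g (i + 1))).1 + 1) +
        γ * ((pos s (L g j)).1 + 1) = α * (pos s (U g i)).1 + β * (pos s (U g (i + 1))).1 +
        γ * (pos s (L g j)).1 + (α + β + γ) := by ring
    rw [hsum] at l5
    linarith

theorem wt_chainF {t : Finset Pt} (ht : t ∈ chain s (midF s) m) : wt s Gs t = 0 := by
  by_contra h0
  obtain ⟨g, -, i, hi, j, hj1, hj, -, rfl⟩ := wt_spec (Nat.one_le_iff_ne_zero.2 h0)
  have hC : ∀ g', pos s (C g') ∉ triU s g i j := by
    intro g' h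
    rcases triU_mem hi hj (v := C g') trivial h with h | h | h <;> simp at h
  have hD : ∀ g', pos s (D g') ∉ triU s g i j := by
    intro g' h
    rcases triU_mem hi hj (v := D g') trivial h with h | h | h <;> simp at h
  have hL : ∀ g' j', j' ≤ s → pos s (L g' j') ∈ triU s g i j → j' = j := by
    intro g' j' hj' h
    rcases triU_mem hi hj (v := L g' j') hj' h with h | h | h
    · simp at h
    · simp at h
    · simp only [Vx.L.injEq] at h
      exact h.2
  obtain ⟨g', -, h | h | h⟩ := mem_chain.1 ht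
  · exact hC g' (by rw [h]; simp [tri1])
  · exact hC (g' + 1) (by rw [h]; simp [tri3])
  · rcases mem_midF.1 h with h | ⟨j', hj', h⟩ | ⟨i', hi', h⟩ | h
    · exact hC (g' + 1) (by rw [h]; simp [triC])
    · have h1 := hL g' j' (by omega) (by rw [← h]; simp [triL])
      have h2 := hL g' (j' + 1) (by omega) (by rw [← h]; simp [triL])
      omega
    · have h1 := hL g' 0 (Nat.zero_le _) (by rw [← h]; simp [triU])
      omega
    · exact hD g' (by rw [h]; simp [triD])

theorem triU_inj {g i g' i' j : ℕ} (hi : i < s) (hi' : i' < s) (hj : j ≤ s)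
    (h : triU s g i j = triU s g' i' j) : g = g' ∧ i = i' := by
  have h1 : pos s (U g i) ∈ triU s g' i' j := by rw [← h]; simp [triU]
  have h2 : pos s (U g (i + 1)) ∈ triU s g' i' j := by rw [← h]; simp [triU]
  rcases triU_mem hi' hj (v := U g i) (show i ≤ s by omega) h1 with h1 | h1 | h1 <;>
  rcases triU_mem hi' hj (v := U g (i + 1)) (show i + 1 ≤ s by omega) h2 with h2 | h2 | h2 <;>
  simp at h1 h2 <;> omega

/-- The lower bound: with `k` Steiner points at least `(m - k) s²` flips are needed. -/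
theorem lower_bound (hm : 0 < m) {P : Set Pt} {q : List Pt} {T₁ T₂ : Finset (Finset Pt)}
    (h1 : InsertPoints P q (chain s (midF s) m) T₁)
    (h2 : InsertPoints P q (chain s (midZ s) m) T₂) {N : ℕ} (hN : FlipPath N T₁ T₂) :
    m * s ^ 2 ≤ N + q.length * s ^ 2 := by
  classical
  set Gs : Finset ℕ := (Finset.range m).filter fun g =>
    ∀ x ∈ q, x.1 < ((g * wid s : ℕ) : ℝ) ∨ (((g + 1) * wid s : ℕ) : ℝ) ≤ x.1 with hGs
  have hGm : ∀ g ∈ Gs, g < m := fun g hg => Finset.mem_range.1 (Finset.mem_filter.1 hg).1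
  have hout : ∀ x ∈ q, Outside s Gs x := fun x hx g hg => (Finset.mem_filter.1 hg).2 x hx
  -- the number of untouched gadgets
  have hcard : m ≤ Gs.card + q.length := by
    have e1 := Finset.card_filter_add_card_filter_not (s := Finset.range m) fun g =>
      ∀ x ∈ q, x.1 < ((g * wid s : ℕ) : ℝ) ∨ (((g + 1) * wid s : ℕ) : ℝ) ≤ x.1
    rw [Finset.card_range] at e1
    have e2 : ((Finset.range m).filter fun g => ¬ ∀ x ∈ q, x.1 < ((g * wid s : ℕ) : ℝ) ∨
        (((g + 1) * wid s : ℕ) : ℝ) ≤ x.1) ⊆
        q.toFinset.image fun x => ⌊x.1 / (wid s : ℝ)⌋₊ := by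
      intro g hg
      have := (Finset.mem_filter.1 hg).2
      push Not at this
      obtain ⟨x, hx, k1, k2⟩ := this
      refine Finset.mem_image.2 ⟨x, List.mem_toFinset.2 hx, ?_⟩
      have hw : (0 : ℝ) < wid s := by exact_mod_cast wid_pos
      rw [Nat.floor_eq_iff]
      · constructor
        · rw [le_div_iff₀ hw]
          exact_mod_cast k1
        · rw [div_lt_iff₀ hw]
          exact_mod_cast k2
      · have : (0 : ℝ) ≤ ((g * wid s : ℕ) : ℝ) := Nat.cast_nonneg _
        exact div_nonneg (this.trans k1) hw.le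
    have e3 := (Finset.card_le_card e2).trans (Finset.card_image_le.trans (List.toFinset_card_le q))
    rw [← hGs] at e1
    omega
  -- good triangles
  have good1 := good_inserts (Gs := Gs) h1 (good_of_triangulation (isTriangulation_F hm)) hout
  have key := (flipPath_le hm hGm good1 hN).2
  -- the start has weight zero
  have w1 : ∑ t ∈ T₁, wt s Gs t = 0 := by
    refine Finset.sum_eq_zero fun t ht => ?_
    rcases mem_of_inserts h1 ht with h | ⟨x, hx, hxt⟩
    · exact wt_chainF h
    · by_contra h0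
      obtain ⟨g, hg, i, hi, j, hj1, hj, -, rfl⟩ := wt_spec (Nat.one_le_iff_ne_zero.2 h0)
      have k1 := triU_strip hi hj (mem_hull_self hxt)
      rcases hout x hx g hg with h | h <;> linarith [k1.1, k1.2]
  -- the end is heavy
  have w2 : Gs.card * s * s ≤ ∑ t ∈ T₂, wt s Gs t := by
    set F : ℕ × ℕ → Finset Pt := fun p => triU s p.1 p.2 s with hF
    have hinj : Set.InjOn F (Gs ×ˢ Finset.range s : Finset (ℕ × ℕ)) := by
      rintro ⟨g, i⟩ h ⟨g', i'⟩ h' he
      simp only [Finset.coe_product, Set.mem_prod, Finset.mem_coe, Finset.mem_range] at h h'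
      obtain ⟨k1, k2⟩ := triU_inj h.2 h'.2 le_rfl he
      exact Prod.ext k1 k2
    have hsub : (Gs ×ˢ Finset.range s).image F ⊆ T₂ := by
      intro t ht
      obtain ⟨⟨g, i⟩, hp, rfl⟩ := Finset.mem_image.1 ht
      rw [Finset.mem_product, Finset.mem_range] at hp
      refine mem_inserts_of h2 ?_ ?_
      · exact mem_chain.2 ⟨g, hGm g hp.1, Or.inr (Or.inr
          (mem_midZ.2 (Or.inr (Or.inl ⟨i, hp.2, rfl⟩))))⟩
      · intro x hx hxt
        have k1 := triU_strip hp.2 le_rfl hxt
        rcases hout x hx g hp.1 with h | h <;> linarith [k1.1, k1.2]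
    calc Gs.card * s * s = ∑ _p ∈ Gs ×ˢ Finset.range s, s := by
          rw [Finset.sum_const, Finset.card_product, Finset.card_range, smul_eq_mul]
      _ ≤ ∑ p ∈ Gs ×ˢ Finset.range s, wt s Gs (F p) := by
          refine Finset.sum_le_sum fun p hp => ?_
          rw [Finset.mem_product, Finset.mem_range] at hp
          exact le_wt hp.1 hp.2 le_rfl
      _ = ∑ t ∈ (Gs ×ˢ Finset.range s).image F, wt s Gs t := (Finset.sum_image hinj).symm
      _ ≤ ∑ t ∈ T₂, wt s Gs t := Finset.sum_le_sum_of_subset hsub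
  have e1 : m * s ^ 2 ≤ (Gs.card + q.length) * s ^ 2 := Nat.mul_le_mul_right _ hcard
  have e2 : (Gs.card + q.length) * s ^ 2 = Gs.card * s * s + q.length * s ^ 2 := by ring
  omega

end Steiner

end Pool.Agent.Q107.Flip
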