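import Pool.Agent.Q107.Flip.PL

/-!
# Sweeping a monotone path over triangles
-/

set_option autoImplicit false

namespace Pool.Agent.Q107.Flip

theorem pl_skip_left {L : List Pt} {a : Pt} {Y Z : List Pt} (hY : XSorted (L ++ a :: Y))
    (hZ : XSorted (L ++ a :: Z)) {A x : ℝ} (hA : L = [] → a.1 = A) (h1 : A ≤ x) (h2 : x ≤ a.1) :
    pl (L ++ a :: Y) x = pl (L ++ a :: Z) x := by
  by_cases hL : L = []
  · have : x = a.1 := le_antisymm h2 (by rw [hA hL]; exact h1)
    subst this
    rw [pl_mem hY, pl_mem hZ]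
  · rw [pl_append_le hL Y h2, pl_append_le hL Z h2]

theorem pl_skip_right {L L' : List Pt} {c : Pt} {R : List Pt} (h : XSorted (L ++ c :: R))
    (h' : XSorted (L' ++ c :: R)) {x : ℝ} (hx : c.1 ≤ x) :
    pl (L ++ c :: R) x = pl (L' ++ c :: R) x := by
  rw [pl_append_ge h hx, pl_append_ge h' hx]

section Step

variable {L R : List Pt} {a b c : Pt} {A B : ℝ}

theorem XSorted.drop_mid (h : XSorted (L ++ a :: b :: c :: R)) : XSorted (L ++ a :: c :: R) := by
  refine List.Pairwise.sublist ?_ h
  refine List.Sublist.append_left ?_ L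
  exact List.Sublist.cons_cons _ (List.sublist_cons_self _ _)

theorem XSorted.lt_ab (h : XSorted (L ++ a :: b :: c :: R)) : a.1 < b.1 :=
  List.rel_of_pairwise_cons (List.pairwise_append.1 h).2.1 (by simp)

theorem XSorted.lt_bc (h : XSorted (L ++ a :: b :: c :: R)) : b.1 < c.1 :=
  List.rel_of_pairwise_cons (List.Pairwise.of_cons (List.pairwise_append.1 h).2.1) (by simp)

/-- the values of the two paths -/
theorem pl_values (h : XSorted (L ++ a :: b :: c :: R)) (hA : L = [] → a.1 = A) (x : ℝ)
    (hx : A ≤ x) :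
    (pl (L ++ a :: c :: R) x = pl (L ++ a :: b :: c :: R) x ∧ (x ≤ a.1 ∨ c.1 ≤ x)) ∨
    (a.1 < x ∧ x < c.1 ∧ pl (L ++ a :: c :: R) x = lin a c x ∧
      pl (L ++ a :: b :: c :: R) x = if x ≤ b.1 then lin a b x else lin b c x) := by
  have h' := h.drop_mid
  rcases le_or_gt x a.1 with h1 | h1
  · left
    exact ⟨pl_skip_left h' h hA hx h1, Or.inl h1⟩
  rcases le_or_gt c.1 x with h2 | h2
  · left
    refine ⟨?_, Or.inr h2⟩
    have e1 : L ++ a :: c :: R = (L ++ [a]) ++ c :: R := by simp
    have e2 : L ++ a :: b :: c :: R = (L ++ [a, b]) ++ c :: R := by simp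
    have h3 := h'
    have h4 := h
    rw [e1] at h3
    rw [e2] at h4
    rw [e1, e2]
    exact pl_skip_right h3 h4 h2
  · right
    refine ⟨h1, h2, pl_mid h' h1.le h2.le, ?_⟩
    split_ifs with h3
    · exact pl_mid h h1.le h3
    · have e2 : L ++ a :: b :: c :: R = (L ++ [a]) ++ b :: c :: R := by simp
      have h4 := h
      rw [e2] at h4
      rw [e2]
      exact pl_mid h4 (not_le.1 h3).le h2.le

theorem layer_above (h : XSorted (L ++ a :: b :: c :: R)) (hA : L = [] → a.1 = A)
    (hA' : A ≤ a.1) (hB : c.1 ≤ B) (hd : 0 < det a c b) :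
    Layer A B (pl (L ++ a :: c :: R)) (pl (L ++ a :: b :: c :: R)) {{a, b, c}} := by
  have hab := h.lt_ab
  have hbc := h.lt_bc
  have hb : lin a c b.1 < b.2 := (det_pos_iff (hab.trans hbc) b).1 hd
  have hmid : ∀ x, a.1 < x → x < c.1 →
      lin a c x < lin a b x ∧ lin a c x < lin b c x := by
    intro x h1 h2
    obtain ⟨e1, e2⟩ := lin_above hab hbc hd x
    have p1 : 0 < (b.2 - lin a c b.1) / (b.1 - a.1) * (x - a.1) :=
      mul_pos (div_pos (by linarith) (by linarith)) (by linarith)
    have p2 : 0 < (b.2 - lin a c b.1) / (c.1 - b.1) * (c.1 - x) :=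
      mul_pos (div_pos (by linarith) (by linarith)) (by linarith)
    constructor <;> linarith
  have hstrict : ∀ x, A ≤ x → a.1 < x → x < c.1 →
      pl (L ++ a :: c :: R) x < pl (L ++ a :: b :: c :: R) x := by
    intro x h0 h1 h2
    rcases pl_values h hA x h0 with ⟨-, h3 | h3⟩ | ⟨-, -, e1, e2⟩
    · linarith
    · linarith
    · rw [e1, e2]
      split_ifs
      · exact (hmid x h1 h2).1
      · exact (hmid x h1 h2).2
  have hform : ∀ x, a.1 ≤ x → x ≤ c.1 →
      pl (L ++ a :: c :: R) x = lin a c x ∧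
      pl (L ++ a :: b :: c :: R) x = if x ≤ b.1 then lin a b x else lin b c x := by
    intro x h1 h2
    refine ⟨pl_mid h.drop_mid h1 h2, ?_⟩
    split_ifs with h3
    · exact pl_mid h h1 h3
    · have e2 : L ++ a :: b :: c :: R = (L ++ [a]) ++ b :: c :: R := by simp
      have h4 := h
      rw [e2] at h4
      rw [e2]
      exact pl_mid h4 (not_le.1 h3).le h2
  have hrange : ∀ z ∈ hull {a, b, c}, a.1 ≤ z.1 ∧ z.1 ≤ c.1 := by
    intro z hz
    rw [hull_triple, mem_hull3] at hz
    obtain ⟨α, β, γ, hα, hβ, hγ, hsum, h1, -⟩ := hz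
    rw [h1]
    have e1 : α = 1 - β - γ := by linarith
    constructor
    · rw [e1]
      nlinarith [mul_nonneg hβ (sub_nonneg.2 hab.le), mul_nonneg hγ (sub_nonneg.2 (hab.trans hbc).le)]
    · have e2 : γ = 1 - α - β := by linarith
      rw [e2]
      nlinarith [mul_nonneg hβ (sub_nonneg.2 hbc.le), mul_nonneg hα (sub_nonneg.2 (hab.trans hbc).le)]
  refine ⟨?_, ?_, ?_, ?_, ?_, ?_⟩
  · intro x h1 h2
    rcases pl_values h hA x h1 with ⟨e, -⟩ | ⟨h3, h4, -, -⟩
    · exact e.le
    · exact (hstrict x h1 h3 h4).le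
  · intro t ht z hz
    rw [Finset.mem_singleton] at ht
    subst ht
    obtain ⟨h1, h2⟩ := hrange z hz
    obtain ⟨e1, e2⟩ := hform z.1 h1 h2
    rw [mem_hull_above hab hbc hd] at hz
    refine ⟨by linarith, by linarith, ?_, ?_⟩
    · rw [e1]
      exact hz.1
    · rw [e2]
      split_ifs
      · exact hz.2.1
      · exact hz.2.2
  · intro z h1 h2 h3 h4 h5
    refine ⟨{a, b, c}, by simp, ?_⟩
    rcases pl_values h hA z.1 h1 with ⟨e, -⟩ | ⟨h6, h7, e1, e2⟩
    · rw [e] at h5
      exact absurd h5 (lt_irrefl _)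
    · rw [mem_hull_above hab hbc hd]
      rw [e1] at h3
      rw [e2] at h4
      refine ⟨h3, ?_⟩
      obtain ⟨f1, f2⟩ := lin_above hab hbc hd z.1
      set κ := b.2 - lin a c b.1 with hκ
      have hκ0 : 0 < κ := by linarith
      split_ifs at h4 with h8
      · refine ⟨h4, h4.trans ?_⟩
        have g1 : κ / (b.1 - a.1) * (z.1 - a.1) ≤ κ := by
          rw [div_mul_eq_mul_div, div_le_iff₀ (by linarith)]
          nlinarith
        have g2 : κ ≤ κ / (c.1 - b.1) * (c.1 - z.1) := by
          rw [div_mul_eq_mul_div, le_div_iff₀ (by linarith)]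
          nlinarith
        linarith
      · push Not at h8
        refine ⟨h4.trans ?_, h4⟩
        have g1 : κ ≤ κ / (b.1 - a.1) * (z.1 - a.1) := by
          rw [div_mul_eq_mul_div, le_div_iff₀ (by linarith)]
          nlinarith
        have g2 : κ / (c.1 - b.1) * (c.1 - z.1) ≤ κ := by
          rw [div_mul_eq_mul_div, div_le_iff₀ (by linarith)]
          nlinarith
        linarith
  · intro t ht p hp q hq x h1 h2
    rw [Finset.mem_singleton] at ht
    subst ht
    have e1 : a.1 ≤ p.1 := by
      simp only [Finset.mem_insert, Finset.mem_singleton] at hp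
      rcases hp with rfl | rfl | rfl <;> linarith
    have e2 : q.1 ≤ c.1 := by
      simp only [Finset.mem_insert, Finset.mem_singleton] at hq
      rcases hq with rfl | rfl | rfl <;> linarith
    exact hstrict x (by linarith) (by linarith) (by linarith)
  · intro t ht t' ht' hne
    rw [Finset.mem_singleton] at ht ht'
    exact absurd (ht.trans ht'.symm) hne
  · intro t ht
    rw [Finset.mem_singleton] at ht
    refine ⟨a, b, c, ht, ?_⟩
    rw [det_swap']
    linarith

theorem lin_below {a b c : Pt} (hab : a.1 < b.1) (hbc : b.1 < c.1) (x : ℝ) :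
    (lin a c x - lin a b x = (lin a c b.1 - b.2) / (b.1 - a.1) * (x - a.1)) ∧
    (lin a c x - lin b c x = (lin a c b.1 - b.2) / (c.1 - b.1) * (c.1 - x)) := by
  have h1 : b.1 - a.1 ≠ 0 := by linarith
  have h2 : c.1 - b.1 ≠ 0 := by linarith
  have h3 : c.1 - a.1 ≠ 0 := by linarith
  constructor
  · simp only [lin]
    field_simp
    ring
  · simp only [lin]
    field_simp
    ring

theorem layer_below (h : XSorted (L ++ a :: b :: c :: R)) (hA : L = [] → a.1 = A)
    (hA' : A ≤ a.1) (hB : c.1 ≤ B) (hd : det a c b < 0) :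
    Layer A B (pl (L ++ a :: b :: c :: R)) (pl (L ++ a :: c :: R)) {{a, b, c}} := by
  have hab := h.lt_ab
  have hbc := h.lt_bc
  have hb : b.2 < lin a c b.1 := (det_neg_iff (hab.trans hbc) b).1 hd
  have hmid : ∀ x, a.1 < x → x < c.1 →
      lin a b x < lin a c x ∧ lin b c x < lin a c x := by
    intro x h1 h2
    obtain ⟨e1, e2⟩ := lin_below hab hbc x
    have p1 : 0 < (lin a c b.1 - b.2) / (b.1 - a.1) * (x - a.1) :=
      mul_pos (div_pos (by linarith) (by linarith)) (by linarith)
    have p2 : 0 < (lin a c b.1 - b.2) / (c.1 - b.1) * (c.1 - x) :=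
      mul_pos (div_pos (by linarith) (by linarith)) (by linarith)
    constructor <;> linarith
  have hstrict : ∀ x, A ≤ x → a.1 < x → x < c.1 →
      pl (L ++ a :: b :: c :: R) x < pl (L ++ a :: c :: R) x := by
    intro x h0 h1 h2
    rcases pl_values h hA x h0 with ⟨-, h3 | h3⟩ | ⟨-, -, e1, e2⟩
    · linarith
    · linarith
    · rw [e1, e2]
      split_ifs
      · exact (hmid x h1 h2).1
      · exact (hmid x h1 h2).2
  have hform : ∀ x, a.1 ≤ x → x ≤ c.1 →
      pl (L ++ a :: c :: R) x = lin a c x ∧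
      pl (L ++ a :: b :: c :: R) x = if x ≤ b.1 then lin a b x else lin b c x := by
    intro x h1 h2
    refine ⟨pl_mid h.drop_mid h1 h2, ?_⟩
    split_ifs with h3
    · exact pl_mid h h1 h3
    · have e2 : L ++ a :: b :: c :: R = (L ++ [a]) ++ b :: c :: R := by simp
      have h4 := h
      rw [e2] at h4
      rw [e2]
      exact pl_mid h4 (not_le.1 h3).le h2
  have hrange : ∀ z ∈ hull {a, b, c}, a.1 ≤ z.1 ∧ z.1 ≤ c.1 := by
    intro z hz
    rw [hull_triple, mem_hull3] at hz
    obtain ⟨α, β, γ, hα, hβ, hγ, hsum, h1, -⟩ := hz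
    rw [h1]
    have e1 : α = 1 - β - γ := by linarith
    constructor
    · rw [e1]
      nlinarith [mul_nonneg hβ (sub_nonneg.2 hab.le), mul_nonneg hγ (sub_nonneg.2 (hab.trans hbc).le)]
    · have e2 : γ = 1 - α - β := by linarith
      rw [e2]
      nlinarith [mul_nonneg hβ (sub_nonneg.2 hbc.le), mul_nonneg hα (sub_nonneg.2 (hab.trans hbc).le)]
  refine ⟨?_, ?_, ?_, ?_, ?_, ?_⟩
  · intro x h1 h2
    rcases pl_values h hA x h1 with ⟨e, -⟩ | ⟨h3, h4, -, -⟩
    · exact e.symm.le
    · exact (hstrict x h1 h3 h4).le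
  · intro t ht z hz
    rw [Finset.mem_singleton] at ht
    subst ht
    obtain ⟨h1, h2⟩ := hrange z hz
    obtain ⟨e1, e2⟩ := hform z.1 h1 h2
    rw [mem_hull_below hab hbc hd] at hz
    refine ⟨by linarith, by linarith, ?_, ?_⟩
    · rw [e2]
      split_ifs
      · exact hz.2.1
      · exact hz.2.2
    · rw [e1]
      exact hz.1
  · intro z h1 h2 h3 h4 h5
    refine ⟨{a, b, c}, by simp, ?_⟩
    rcases pl_values h hA z.1 h1 with ⟨e, -⟩ | ⟨h6, h7, e1, e2⟩
    · rw [e] at h5
      exact absurd h5 (lt_irrefl _)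
    · rw [mem_hull_below hab hbc hd]
      rw [e1] at h4
      rw [e2] at h3
      refine ⟨h4, ?_⟩
      obtain ⟨f1, f2⟩ := lin_below hab hbc z.1
      set κ := lin a c b.1 - b.2 with hκ
      have hκ0 : 0 < κ := by linarith
      split_ifs at h3 with h8
      · refine ⟨h3, le_trans ?_ h3⟩
        have g1 : κ / (b.1 - a.1) * (z.1 - a.1) ≤ κ := by
          rw [div_mul_eq_mul_div, div_le_iff₀ (by linarith)]
          nlinarith
        have g2 : κ ≤ κ / (c.1 - b.1) * (c.1 - z.1) := by
          rw [div_mul_eq_mul_div, le_div_iff₀ (by linarith)]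
          nlinarith
        linarith
      · push Not at h8
        refine ⟨le_trans ?_ h3, h3⟩
        have g1 : κ ≤ κ / (b.1 - a.1) * (z.1 - a.1) := by
          rw [div_mul_eq_mul_div, le_div_iff₀ (by linarith)]
          nlinarith
        have g2 : κ / (c.1 - b.1) * (c.1 - z.1) ≤ κ := by
          rw [div_mul_eq_mul_div, div_le_iff₀ (by linarith)]
          nlinarith
        linarith
  · intro t ht p hp q hq x h1 h2
    rw [Finset.mem_singleton] at ht
    subst ht
    have e1 : a.1 ≤ p.1 := by
      simp only [Finset.mem_insert, Finset.mem_singleton] at hp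
      rcases hp with rfl | rfl | rfl <;> linarith
    have e2 : q.1 ≤ c.1 := by
      simp only [Finset.mem_insert, Finset.mem_singleton] at hq
      rcases hq with rfl | rfl | rfl <;> linarith
    exact hstrict x (by linarith) (by linarith) (by linarith)
  · intro t ht t' ht' hne
    rw [Finset.mem_singleton] at ht ht'
    exact absurd (ht.trans ht'.symm) hne
  · intro t ht
    rw [Finset.mem_singleton] at ht
    refine ⟨a, b, c, ht, ?_⟩
    rw [det_swap']
    linarith

end Step

/-- The path `Y` arises from the path `X` by sweeping over the triangles of `T`. -/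
inductive Sweep : List Pt → List Pt → Finset (Finset Pt) → Prop
  | refl (X : List Pt) : Sweep X X ∅
  | ins {X : List Pt} {T : Finset (Finset Pt)} (L R : List Pt) (a b c : Pt)
      (h : Sweep X (L ++ a :: c :: R) T) (h1 : a.1 < b.1) (h2 : b.1 < c.1) (h3 : 0 < det a c b) :
      Sweep X (L ++ a :: b :: c :: R) ({{a, b, c}} ∪ T)
  | rem {X : List Pt} {T : Finset (Finset Pt)} (L R : List Pt) (a b c : Pt)
      (h : Sweep X (L ++ a :: b :: c :: R) T) (h3 : det a c b < 0) :
      Sweep X (L ++ a :: c :: R) ({{a, b, c}} ∪ T)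

theorem Sweep.trans {X Y Z : List Pt} {T T' : Finset (Finset Pt)} (h : Sweep X Y T)
    (h' : Sweep Y Z T') : Sweep X Z (T' ∪ T) := by
  induction h' with
  | refl => simpa using h
  | ins L R a b c _ h1 h2 h3 ih =>
    rw [Finset.union_assoc]
    exact Sweep.ins L R a b c ih h1 h2 h3
  | rem L R a b c _ h3 ih =>
    rw [Finset.union_assoc]
    exact Sweep.rem L R a b c ih h3

theorem Sweep.context {X Y : List Pt} {T : Finset (Finset Pt)} (h : Sweep X Y T)
    (P Q : List Pt) : Sweep (P ++ X ++ Q) (P ++ Y ++ Q) T := by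
  induction h with
  | refl => exact Sweep.refl _
  | ins L R a b c _ h1 h2 h3 ih =>
    have e : P ++ (L ++ a :: b :: c :: R) ++ Q = (P ++ L) ++ a :: b :: c :: (R ++ Q) := by simp
    have e' : P ++ (L ++ a :: c :: R) ++ Q = (P ++ L) ++ a :: c :: (R ++ Q) := by simp
    rw [e'] at ih
    rw [e]
    exact Sweep.ins _ _ _ _ _ ih h1 h2 h3
  | rem L R a b c _ h3 ih =>
    have e : P ++ (L ++ a :: b :: c :: R) ++ Q = (P ++ L) ++ a :: b :: c :: (R ++ Q) := by simp
    have e' : P ++ (L ++ a :: c :: R) ++ Q = (P ++ L) ++ a :: c :: (R ++ Q) := by simp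
    rw [e] at ih
    rw [e']
    exact Sweep.rem _ _ _ _ _ ih h3

theorem XSorted.insert_mid {L R : List Pt} {a b c : Pt} (h : XSorted (L ++ a :: c :: R))
    (h1 : a.1 < b.1) (h2 : b.1 < c.1) : XSorted (L ++ a :: b :: c :: R) := by
  unfold XSorted at *
  rw [List.pairwise_append] at h ⊢
  obtain ⟨hL, hR, hLR⟩ := h
  rw [List.pairwise_cons, List.pairwise_cons] at hR
  obtain ⟨ha, hc, hR'⟩ := hR
  refine ⟨hL, ?_, ?_⟩
  · rw [List.pairwise_cons, List.pairwise_cons, List.pairwise_cons]
    refine ⟨?_, ?_, hc, hR'⟩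
    · intro d hd
      rcases List.mem_cons.1 hd with rfl | hd
      · exact h1
      · exact ha d hd
    · intro d hd
      rcases List.mem_cons.1 hd with rfl | hd
      · exact h2
      · exact h2.trans (hc d hd)
  · intro d hd e he
    rcases List.mem_cons.1 he with rfl | he
    · exact hLR d hd _ (by simp)
    rcases List.mem_cons.1 he with rfl | he
    · exact (hLR d hd a (by simp)).trans h1
    · exact hLR d hd e (List.mem_cons_of_mem _ he)

theorem Sweep.layer {X Y : List Pt} {T : Finset (Finset Pt)} (h : Sweep X Y T)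
    (hs : XSorted X) {p q : Pt} (hp : X.head? = some p) (hq : X.getLast? = some q) :
    (Y.head? = some p ∧ Y.getLast? = some q ∧ XSorted Y) ∧ Layer p.1 q.1 (pl X) (pl Y) T := by
  induction h with
  | refl => exact ⟨⟨hp, hq, hs⟩, Layer.refl _ _ _⟩
  | ins L R a b c _ h1 h2 h3 ih =>
    obtain ⟨⟨i1, i2, i3⟩, i4⟩ := ih
    have hs' := i3.insert_mid h1 h2
    have j1 : (L ++ a :: b :: c :: R).head? = some p := by
      cases L with
      | nil => simpa using i1
      | cons d L => simpa using i1
    have j2 : (L ++ a :: b :: c :: R).getLast? = some q := by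
      rw [← i2]
      simp [List.getLast?_append]
    refine ⟨⟨j1, j2, hs'⟩, i4.trans ?_⟩
    refine layer_above hs' ?_ ?_ ?_ h3
    · rintro rfl
      simp at i1
      rw [i1]
    · cases L with
      | nil =>
        simp at i1
        rw [i1]
      | cons d L =>
        simp at i1
        subst i1
        exact (List.rel_of_pairwise_cons i3 (by simp)).le
    · have hmem : q ∈ L ++ a :: c :: R := List.mem_of_getLast? i2
      rcases List.eq_nil_or_concat R with rfl | ⟨R', r, rfl⟩
      · have : q = c := by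
          simpa [List.getLast?_append] using i2.symm
        rw [this]
      · have hqr : q = r := by
          have e : L ++ a :: c :: (R' ++ [r]) = (L ++ a :: c :: R') ++ [r] := by simp
          rw [List.concat_eq_append, e, List.getLast?_append] at i2
          simpa using i2.symm
        subst hqr
        have h5 := (List.pairwise_append.1 i3).2.1
        exact (List.rel_of_pairwise_cons (List.Pairwise.of_cons h5) (by simp)).le
  | rem L R a b c _ h3 ih =>
    obtain ⟨⟨i1, i2, i3⟩, i4⟩ := ih
    have hs' := i3.drop_mid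
    have j1 : (L ++ a :: c :: R).head? = some p := by
      cases L with
      | nil => simpa using i1
      | cons d L => simpa using i1
    have j2 : (L ++ a :: c :: R).getLast? = some q := by
      rw [← i2]
      simp [List.getLast?_append]
    refine ⟨⟨j1, j2, hs'⟩, i4.trans ?_⟩
    refine layer_below i3 ?_ ?_ ?_ h3
    · rintro rfl
      simp at i1
      rw [i1]
    · cases L with
      | nil =>
        simp at i1
        rw [i1]
      | cons d L =>
        simp at i1
        subst i1
        exact (List.rel_of_pairwise_cons i3 (by simp)).le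
    · rcases List.eq_nil_or_concat R with rfl | ⟨R', r, rfl⟩
      · have : q = c := by
          simpa [List.getLast?_append] using j2.symm
        rw [this]
      · have hqr : q = r := by
          have e : L ++ a :: c :: (R' ++ [r]) = (L ++ a :: c :: R') ++ [r] := by simp
          rw [List.concat_eq_append, e, List.getLast?_append] at j2
          simpa using j2.symm
        subst hqr
        have h5 := (List.pairwise_append.1 hs').2.1
        exact (List.rel_of_pairwise_cons (List.Pairwise.of_cons h5) (by simp)).le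

end Pool.Agent.Q107.Flip
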